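import Mathlib

set_option autoImplicit false

open MeasureTheory Set
open scoped ContDiff

namespace Pool.Agent.Helper19.SR

/-- A smooth bump function, positive exactly on `(0,1)`. -/
noncomputable def psi (s : ℝ) : ℝ := expNegInvGlue s * expNegInvGlue (1 - s)

theorem contDiff_psi : ContDiff ℝ ∞ psi := by
  have : ContDiff ℝ ∞ expNegInvGlue := expNegInvGlue.contDiff (n := ⊤)
  unfold psi
  exact this.mul (this.comp (contDiff_const.sub contDiff_id))

theorem psi_nonneg (s : ℝ) : 0 ≤ psi s :=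
  mul_nonneg (expNegInvGlue.nonneg _) (expNegInvGlue.nonneg _)

theorem psi_pos {s : ℝ} (h0 : 0 < s) (h1 : s < 1) : 0 < psi s :=
  mul_pos (expNegInvGlue.pos_of_pos h0) (expNegInvGlue.pos_of_pos (by linarith))

theorem psi_ne_zero {s : ℝ} (h : psi s ≠ 0) : 0 < s ∧ s < 1 := by
  constructor
  · by_contra hc
    exact h (by simp [psi, expNegInvGlue.zero_of_nonpos (not_lt.1 hc)])
  · by_contra hc
    exact h (by
      have : 1 - s ≤ 0 := by linarith [not_lt.1 hc]
      simp [psi, expNegInvGlue.zero_of_nonpos this])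

theorem hasCompactSupport_psi : HasCompactSupport psi := by
  refine HasCompactSupport.intro (K := Icc 0 1) isCompact_Icc ?_
  intro x hx
  by_contra hc
  exact hx ⟨(psi_ne_zero hc).1.le, (psi_ne_zero hc).2.le⟩

/-- `α_k = (k+1)(k+2)`. -/
noncomputable def alph (k : ℕ) : ℝ := ((k : ℝ) + 1) * ((k : ℝ) + 2)

theorem alph_pos (k : ℕ) : 0 < alph k := by unfold alph; positivity

/-- The bump on `[1/(k+2), 1/(k+1)]`. -/
noncomputable def bump (k : ℕ) (x : ℝ) : ℝ := psi (alph k * x - ((k : ℝ) + 1))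

theorem contDiff_bump (k : ℕ) : ContDiff ℝ ∞ (bump k) := by
  unfold bump
  exact contDiff_psi.comp (by fun_prop)

theorem bump_nonneg (k : ℕ) (x : ℝ) : 0 ≤ bump k x := psi_nonneg _

theorem bump_ne_zero {k : ℕ} {x : ℝ} (h : bump k x ≠ 0) :
    0 < x ∧ 1 < ((k : ℝ) + 2) * x ∧ ((k : ℝ) + 1) * x < 1 := by
  obtain ⟨h1, h2⟩ := psi_ne_zero h
  unfold alph at h1 h2
  have hk : (0 : ℝ) < (k : ℝ) + 1 := by positivity
  have hk2 : (0 : ℝ) < (k : ℝ) + 2 := by positivity
  have e1 : 1 < ((k : ℝ) + 2) * x := by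
    by_contra hc
    rw [not_lt] at hc
    nlinarith [mul_le_mul_of_nonneg_left hc hk.le]
  have e2 : ((k : ℝ) + 1) * x < 1 := by
    by_contra hc
    rw [not_lt] at hc
    nlinarith [mul_le_mul_of_nonneg_left hc hk2.le]
  refine ⟨?_, e1, e2⟩
  by_contra hc
  rw [not_lt] at hc
  nlinarith [mul_nonneg hk2.le (neg_nonneg.2 hc)]

theorem bump_unique {k l : ℕ} {x : ℝ} (hk : bump k x ≠ 0) (hl : bump l x ≠ 0) : k = l := by
  obtain ⟨hx, hk1, hk2⟩ := bump_ne_zero hk
  obtain ⟨_, hl1, hl2⟩ := bump_ne_zero hl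
  have h1 : (k : ℝ) + 1 < (l : ℝ) + 2 := by
    by_contra hc
    rw [not_lt] at hc
    nlinarith [mul_le_mul_of_nonneg_right hc hx.le]
  have h2 : (l : ℝ) + 1 < (k : ℝ) + 2 := by
    by_contra hc
    rw [not_lt] at hc
    nlinarith [mul_le_mul_of_nonneg_right hc hx.le]
  have h3 : k < l + 1 := by exact_mod_cast (by linarith : (k : ℝ) < (l : ℝ) + 1)
  have h4 : l < k + 1 := by exact_mod_cast (by linarith : (l : ℝ) < (k : ℝ) + 1)
  omega

/-- The train of bumps with coefficients `e k / 2 ^ k`. -/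
noncomputable def train (e : ℕ → ℝ) (x : ℝ) : ℝ := ∑' k, e k * (1 / 2) ^ k * bump k x

theorem train_eq_of_ne {e : ℕ → ℝ} {x : ℝ} {k : ℕ} (h : bump k x ≠ 0) :
    train e x = e k * (1 / 2) ^ k * bump k x := by
  unfold train
  rw [tsum_eq_single k]
  intro l hl
  have : bump l x = 0 := by
    by_contra hc
    exact hl (bump_unique hc h)
  simp [this]

theorem train_eq_zero {e : ℕ → ℝ} {x : ℝ} (h : ∀ k, bump k x = 0) : train e x = 0 := by
  simp [train, h]

theorem train_of_nonpos (e : ℕ → ℝ) {x : ℝ} (hx : x ≤ 0) : train e x = 0 := by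
  apply train_eq_zero
  intro k
  by_contra hc
  exact absurd (bump_ne_zero hc).1 (not_lt.2 hx)

theorem train_of_one_le (e : ℕ → ℝ) {x : ℝ} (hx : 1 ≤ x) : train e x = 0 := by
  apply train_eq_zero
  intro k
  by_contra hc
  have := (bump_ne_zero hc).2.2
  have hk : (0 : ℝ) ≤ k := Nat.cast_nonneg k
  nlinarith [mul_nonneg hk (zero_le_one.trans hx)]

theorem train_mul_sub {e : ℕ → ℝ} (he : ∀ k, e k = 0 ∨ e k = 1) (x : ℝ) :
    train e x * (train (fun _ => 1) x - train e x) = 0 := by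
  by_cases h : ∃ k, bump k x ≠ 0
  · obtain ⟨k, hk⟩ := h
    rw [train_eq_of_ne hk, train_eq_of_ne hk]
    rcases he k with h | h <;> simp [h]
  · push Not at h
    rw [train_eq_zero h]
    simp

theorem iteratedDeriv_comp_affine {f : ℝ → ℝ} (hf : ContDiff ℝ ∞ f) (α β : ℝ) (n : ℕ) :
    iteratedDeriv n (fun x => f (α * x - β)) = fun x => α ^ n * iteratedDeriv n f (α * x - β) := by
  induction n with
  | zero => simp
  | succ n ih =>
    rw [iteratedDeriv_succ, ih]
    ext x
    have h1 : HasDerivAt (fun x : ℝ => α * x - β) α x := by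
      simpa using ((hasDerivAt_id x).const_mul α).sub_const β
    have h2 : HasDerivAt (iteratedDeriv n f) (iteratedDeriv (n + 1) f (α * x - β))
        (α * x - β) := by
      rw [iteratedDeriv_succ]
      exact (hf.differentiable_iteratedDeriv n (by exact_mod_cast ENat.natCast_lt_top n) _).hasDerivAt
    have h3 := ((h2.comp x h1).const_mul (α ^ n)).deriv
    simp only [Function.comp_def] at h3
    rw [h3]
    ring

theorem exists_bound_iteratedDeriv_psi (n : ℕ) : ∃ M : ℝ, ∀ s, ‖iteratedDeriv n psi s‖ ≤ M := by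
  have hc : Continuous (iteratedDeriv n psi) :=
    contDiff_psi.continuous_iteratedDeriv n (by exact_mod_cast le_top)
  have hs : HasCompactSupport (iteratedDeriv n psi) := by
    have := hasCompactSupport_psi.iteratedFDeriv (𝕜 := ℝ) n
    rw [hasCompactSupport_iff_eventuallyEq] at this ⊢
    filter_upwards [this] with x hx
    rw [iteratedDeriv_eq_iteratedFDeriv, hx]
    rfl
  exact hs.exists_bound_of_continuous hc

theorem summable_alph (n : ℕ) : Summable (fun k => alph k ^ n * (1 / 2 : ℝ) ^ k) := by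
  have h1 : Summable (fun k : ℕ => ((k : ℝ)) ^ (2 * n) * (1 / 2 : ℝ) ^ k) :=
    summable_pow_mul_geometric_of_norm_lt_one (2 * n) (by norm_num)
  have h2 : Summable (fun k : ℕ => (((k + 2 : ℕ) : ℝ)) ^ (2 * n) * (1 / 2 : ℝ) ^ (k + 2)) :=
    (summable_nat_add_iff 2).2 h1
  refine Summable.of_nonneg_of_le (fun k => ?_) (fun k => ?_) (h2.mul_left 4)
  · exact mul_nonneg (pow_nonneg (alph_pos k).le n) (by positivity)
  · have h3 : alph k ≤ (((k + 2 : ℕ) : ℝ)) ^ 2 := by
      unfold alph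
      push_cast
      nlinarith [Nat.cast_nonneg (α := ℝ) k]
    have h4 := (alph_pos k).le
    calc alph k ^ n * (1 / 2 : ℝ) ^ k ≤ ((((k + 2 : ℕ) : ℝ)) ^ 2) ^ n * (1 / 2 : ℝ) ^ k := by
          gcongr
      _ = 4 * ((((k + 2 : ℕ) : ℝ)) ^ (2 * n) * (1 / 2 : ℝ) ^ (k + 2)) := by
          rw [← pow_mul, pow_add]
          ring

theorem contDiff_train {e : ℕ → ℝ} (he : ∀ k, |e k| ≤ 1) : ContDiff ℝ ∞ (train e) := by
  choose M hM using exists_bound_iteratedDeriv_psi
  have hM0 : ∀ n, 0 ≤ M n := fun n => (norm_nonneg _).trans (hM n 0)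
  unfold train
  refine contDiff_tsum (N := ⊤) (v := fun n k => M n * ((alph k) ^ n * (1 / 2) ^ k)) ?_ ?_ ?_
  · intro k
    exact contDiff_const.mul (contDiff_bump k)
  · intro n _
    refine Summable.mul_left _ ?_
    exact summable_alph n
  · intro n k x _
    rw [norm_iteratedFDeriv_eq_norm_iteratedDeriv]
    have h1 : iteratedDeriv n (fun x => e k * (1 / 2) ^ k * bump k x) x =
        e k * (1 / 2) ^ k * (alph k ^ n * iteratedDeriv n psi (alph k * x - ((k : ℝ) + 1))) := by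
      rw [iteratedDeriv_const_mul_field]
      unfold bump
      rw [iteratedDeriv_comp_affine contDiff_psi]
    rw [h1, norm_mul, norm_mul, norm_mul]
    have h2 : ‖e k‖ ≤ 1 := he k
    have h3 : ‖((1 : ℝ) / 2) ^ k‖ = (1 / 2) ^ k := by
      rw [Real.norm_of_nonneg (by positivity)]
    have h4 : ‖alph k ^ n‖ = alph k ^ n := by
      rw [Real.norm_of_nonneg (pow_nonneg (alph_pos k).le n)]
    rw [h3, h4]
    have h5 := hM n (alph k * x - ((k : ℝ) + 1))
    have h6 := pow_nonneg (alph_pos k).le n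
    calc ‖e k‖ * (1 / 2) ^ k * (alph k ^ n * ‖iteratedDeriv n psi (alph k * x - (↑k + 1))‖)
        ≤ 1 * (1 / 2) ^ k * (alph k ^ n * M n) := by gcongr
      _ = M n * (alph k ^ n * (1 / 2) ^ k) := by ring

end Pool.Agent.Helper19.SR
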