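import Mathlib

set_option autoImplicit false

open MeasureTheory Set
open scoped ContDiff

namespace Pool.Agent.Helper19.SR

/-- `IsIteratedBracket X V` says that the vector field `V` is one of the fields `X i`, or is
obtained from them by taking finitely many Lie brackets. -/
inductive IsIteratedBracket {E : Type} [NormedAddCommGroup E] [NormedSpace ℝ E] {ι : Type}
    (X : ι → E → E) : (E → E) → Prop
  | base (i : ι) : IsIteratedBracket X (X i)
  | bracket {V W : E → E} : IsIteratedBracket X V → IsIteratedBracket X W →
      IsIteratedBracket X (VectorField.lieBracket ℝ V W)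

/-- A smooth sub-Riemannian structure of rank `k` on the manifold `ℝⁿ`, given by a global smooth
orthonormal frame `X 0, …, X (k-1)` of a bracket generating distribution: the distribution is the
span of the fields, the metric on it is the one for which they are orthonormal. -/
structure SubRiemannianFrame (n k : ℕ) where
  /-- the fields of the frame -/
  X : Fin k → EuclideanSpace ℝ (Fin n) → EuclideanSpace ℝ (Fin n)
  /-- the fields are smooth -/
  smooth : ∀ i, ContDiff ℝ ∞ (X i)
  /-- the fields are linearly independent at every point (constant rank `k`) -/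
  linearIndependent : ∀ q, LinearIndependent ℝ (fun i => X i q)
  /-- at every point the iterated Lie brackets of the fields span the whole tangent space -/
  bracketGenerating :
    ∀ q, Submodule.span ℝ {v | ∃ V, IsIteratedBracket X V ∧ V q = v} = ⊤

/-- The Hilbert space `L²([0,1], ℝᵏ)` of controls. -/
abbrev Control (k : ℕ) : Type :=
  Lp (EuclideanSpace ℝ (Fin k)) 2 (volume.restrict (Icc (0 : ℝ) 1))

/-- `γ` is (on `[0,1]`) the admissible path with initial point `q₀` and control `u`:
`γ' = ∑ i, u i • X i (γ)`, `γ 0 = q₀`, in the sense of Caratheodory. -/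
def IsTrajectory {n k : ℕ} (S : SubRiemannianFrame n k) (q₀ : EuclideanSpace ℝ (Fin n))
    (u : Control k) (γ : ℝ → EuclideanSpace ℝ (Fin n)) : Prop :=
  ContinuousOn γ (Icc 0 1) ∧
    ∀ t ∈ Icc (0 : ℝ) 1, γ t = q₀ + ∫ s in (0 : ℝ)..t, ∑ i, (u s) i • S.X i (γ s)

/-- `End` is the endpoint map of `S` based at `q₀`: every control has a trajectory starting at
`q₀`, and `End u` is the value at time `1` of every trajectory of `u` starting at `q₀`. -/
def IsEndpointMap {n k : ℕ} (S : SubRiemannianFrame n k) (q₀ : EuclideanSpace ℝ (Fin n))
    (End : Control k → EuclideanSpace ℝ (Fin n)) : Prop :=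
  ∀ u, (∃ γ, IsTrajectory S q₀ u γ) ∧ ∀ γ, IsTrajectory S q₀ u γ → γ 1 = End u

/-- `x` is a regular point of the (differentiable) map `F` when the differential of `F` at `x` is
onto; otherwise it is a critical point. -/
def IsRegularPoint {X Y : Type} [NormedAddCommGroup X] [NormedSpace ℝ X]
    [NormedAddCommGroup Y] [NormedSpace ℝ Y] (F : X → Y) (x : X) : Prop :=
  Function.Surjective (fderiv ℝ F x)

/-- `y` is a regular value of the (differentiable) map `F` when every point of its fibre is a
regular point. -/
def IsRegularValue {X Y : Type} [NormedAddCommGroup X] [NormedSpace ℝ X]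
    [NormedAddCommGroup Y] [NormedSpace ℝ Y] (F : X → Y) (y : Y) : Prop :=
  ∀ x, F x = y → IsRegularPoint F x

end Pool.Agent.Helper19.SR
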