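import Mathlib
import Pool.Agent.Helper19.SR.Defs

set_option autoImplicit false

open MeasureTheory Set
open scoped ContDiff

namespace Pool.Agent.Helper19.SR

variable {k : ℕ}

theorem Control.memLp (u : Control k) : MemLp u 2 (volume.restrict (Icc (0 : ℝ) 1)) := Lp.memLp u

theorem Control.integrable (u : Control k) : Integrable u (volume.restrict (Icc (0 : ℝ) 1)) :=
  (Control.memLp u).integrable one_le_two

theorem Control.intervalIntegrable (u : Control k) {a b : ℝ} (ha : a ∈ Icc (0 : ℝ) 1)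
    (hb : b ∈ Icc (0 : ℝ) 1) : IntervalIntegrable u volume a b := by
  rw [intervalIntegrable_iff]
  have h : IntegrableOn u (Icc (0 : ℝ) 1) := u.integrable
  refine h.mono_set ?_
  intro x hx
  rcases mem_uIoc.1 hx with h | h
  · exact ⟨ha.1.trans h.1.le, h.2.trans hb.2⟩
  · exact ⟨hb.1.trans h.1.le, h.2.trans ha.2⟩

/-- The restriction of Lebesgue measure to `[0,1]` is a probability measure. -/
instance : IsProbabilityMeasure (volume.restrict (Icc (0 : ℝ) 1)) := ⟨by simp⟩

theorem integral_norm_le (u : Control k) : ∫ s in (0 : ℝ)..1, ‖u s‖ ≤ ‖u‖ := by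
  rw [intervalIntegral.integral_of_le zero_le_one, ← integral_Icc_eq_integral_Ioc]
  rw [integral_norm_eq_lintegral_enorm u.memLp.1, Lp.norm_def, ← eLpNorm_one_eq_lintegral_enorm]
  refine ENNReal.toReal_mono (Lp.eLpNorm_ne_top u) ?_
  exact eLpNorm_le_eLpNorm_of_exponent_le one_le_two u.memLp.1

/-- The primitive of a control. -/
noncomputable def prim (u : Control k) (t : ℝ) : EuclideanSpace ℝ (Fin k) :=
  ∫ s in (0 : ℝ)..t, u s

theorem prim_zero (u : Control k) : prim u 0 = 0 := by simp [prim]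

theorem continuousOn_prim (u : Control k) : ContinuousOn (prim u) (Icc 0 1) := by
  have := intervalIntegral.continuousOn_primitive_interval (μ := volume) (a := (0 : ℝ)) (b := 1)
    (f := u) (by rw [uIcc_of_le zero_le_one]; exact u.integrable)
  rwa [uIcc_of_le zero_le_one] at this

theorem ae_of_restrict {p : ℝ → Prop} (h : ∀ᵐ s ∂(volume.restrict (Icc (0 : ℝ) 1)), p s)
    {a b : ℝ} (ha : a ∈ Icc (0 : ℝ) 1) (hb : b ∈ Icc (0 : ℝ) 1) :
    ∀ᵐ s, s ∈ uIoc a b → p s := by
  rw [ae_restrict_iff' measurableSet_Icc] at h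
  filter_upwards [h] with s hs hs'
  apply hs
  rcases mem_uIoc.1 hs' with h | h
  · exact ⟨ha.1.trans h.1.le, h.2.trans hb.2⟩
  · exact ⟨hb.1.trans h.1.le, h.2.trans ha.2⟩

theorem prim_add (u v : Control k) {t : ℝ} (ht : t ∈ Icc (0 : ℝ) 1) :
    prim (u + v) t = prim u t + prim v t := by
  have h0 : (0 : ℝ) ∈ Icc (0 : ℝ) 1 := by simp
  unfold prim
  rw [← intervalIntegral.integral_add (u.intervalIntegrable h0 ht) (v.intervalIntegrable h0 ht)]
  apply intervalIntegral.integral_congr_ae
  exact ae_of_restrict (Lp.coeFn_add u v) h0 ht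

theorem prim_smul (c : ℝ) (u : Control k) {t : ℝ} (ht : t ∈ Icc (0 : ℝ) 1) :
    prim (c • u) t = c • prim u t := by
  have h0 : (0 : ℝ) ∈ Icc (0 : ℝ) 1 := by simp
  unfold prim
  rw [← intervalIntegral.integral_smul]
  apply intervalIntegral.integral_congr_ae
  exact ae_of_restrict (Lp.coeFn_smul c u) h0 ht

theorem norm_prim_le (u : Control k) {t : ℝ} (ht : t ∈ Icc (0 : ℝ) 1) : ‖prim u t‖ ≤ ‖u‖ := by
  have h0 : (0 : ℝ) ∈ Icc (0 : ℝ) 1 := by simp
  have h1 : (1 : ℝ) ∈ Icc (0 : ℝ) 1 := by simp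
  unfold prim
  refine (intervalIntegral.norm_integral_le_integral_norm ht.1).trans ?_
  refine le_trans ?_ (integral_norm_le u)
  have hint : IntervalIntegrable (fun s => ‖u s‖) volume 0 1 := (u.intervalIntegrable h0 h1).norm
  apply intervalIntegral.integral_mono_interval le_rfl ht.1 ht.2 _ hint
  filter_upwards with s using norm_nonneg _

theorem continuous_prim_coe (u : Control k) :
    Continuous (fun t : Icc (0 : ℝ) 1 => prim u t) :=
  (continuousOn_prim u).comp_continuous continuous_subtype_val (fun t => t.2)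

/-- The primitive as a continuous linear map from controls to continuous maps. -/
noncomputable def primL : Control k →L[ℝ] C(Icc (0 : ℝ) 1, EuclideanSpace ℝ (Fin k)) :=
  LinearMap.mkContinuous
    { toFun := fun u => ⟨fun t => prim u t, continuous_prim_coe u⟩
      map_add' := fun u v => ContinuousMap.ext fun t => prim_add u v t.2
      map_smul' := fun c u => ContinuousMap.ext fun t => prim_smul c u t.2 }
    1
    (by
      intro u
      rw [one_mul, ContinuousMap.norm_le _ (norm_nonneg _)]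
      intro t
      exact norm_prim_le u t.2)

@[simp] theorem primL_apply (u : Control k) (t : Icc (0 : ℝ) 1) : primL u t = prim u t := rfl

/-- The pairing `(c, u) ↦ ∫₀¹ c(t) u_i(t) dt`. -/
noncomputable def pair (c : C(Icc (0 : ℝ) 1, ℝ)) (i : Fin k) (u : Control k) : ℝ :=
  ∫ t in (0 : ℝ)..1, IccExtend zero_le_one c t * u t i

theorem Control.intervalIntegrable_apply (u : Control k) (i : Fin k) {a b : ℝ}
    (ha : a ∈ Icc (0 : ℝ) 1) (hb : b ∈ Icc (0 : ℝ) 1) :
    IntervalIntegrable (fun t => u t i) volume a b := by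
  have := u.intervalIntegrable ha hb
  constructor
  · exact (EuclideanSpace.proj (𝕜 := ℝ) i).integrable_comp this.1
  · exact (EuclideanSpace.proj (𝕜 := ℝ) i).integrable_comp this.2

theorem Control.intervalIntegrable_mul (u : Control k) (i : Fin k) {a b : ℝ}
    (ha : a ∈ Icc (0 : ℝ) 1) (hb : b ∈ Icc (0 : ℝ) 1) {c : ℝ → ℝ}
    (hc : ContinuousOn c (Icc 0 1)) :
    IntervalIntegrable (fun t => c t * u t i) volume a b := by
  refine (u.intervalIntegrable_apply i ha hb).continuousOn_mul (hc.mono ?_)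
  exact uIcc_subset_Icc ha hb

theorem pair_add_left (c c' : C(Icc (0 : ℝ) 1, ℝ)) (i : Fin k) (u : Control k) :
    pair (c + c') i u = pair c i u + pair c' i u := by
  have h0 : (0 : ℝ) ∈ Icc (0 : ℝ) 1 := by simp
  have h1 : (1 : ℝ) ∈ Icc (0 : ℝ) 1 := by simp
  unfold pair
  rw [← intervalIntegral.integral_add
    (u.intervalIntegrable_mul i h0 h1 (c.continuous.Icc_extend').continuousOn)
    (u.intervalIntegrable_mul i h0 h1 (c'.continuous.Icc_extend').continuousOn)]
  congr 1
  ext t
  simp [IccExtend, add_mul]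

theorem pair_smul_left (r : ℝ) (c : C(Icc (0 : ℝ) 1, ℝ)) (i : Fin k) (u : Control k) :
    pair (r • c) i u = r * pair c i u := by
  unfold pair
  rw [← intervalIntegral.integral_const_mul]
  congr 1
  ext t
  simp [IccExtend, mul_assoc]

theorem pair_add_right (c : C(Icc (0 : ℝ) 1, ℝ)) (i : Fin k) (u v : Control k) :
    pair c i (u + v) = pair c i u + pair c i v := by
  have h0 : (0 : ℝ) ∈ Icc (0 : ℝ) 1 := by simp
  have h1 : (1 : ℝ) ∈ Icc (0 : ℝ) 1 := by simp
  unfold pair
  rw [← intervalIntegral.integral_add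
    (u.intervalIntegrable_mul i h0 h1 (c.continuous.Icc_extend').continuousOn)
    (v.intervalIntegrable_mul i h0 h1 (c.continuous.Icc_extend').continuousOn)]
  apply intervalIntegral.integral_congr_ae
  filter_upwards [ae_of_restrict (Lp.coeFn_add u v) h0 h1] with t ht ht'
  rw [ht ht']
  simp [mul_add]

theorem pair_smul_right (r : ℝ) (c : C(Icc (0 : ℝ) 1, ℝ)) (i : Fin k) (u : Control k) :
    pair c i (r • u) = r * pair c i u := by
  have h0 : (0 : ℝ) ∈ Icc (0 : ℝ) 1 := by simp
  have h1 : (1 : ℝ) ∈ Icc (0 : ℝ) 1 := by simp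
  unfold pair
  rw [← intervalIntegral.integral_const_mul]
  apply intervalIntegral.integral_congr_ae
  filter_upwards [ae_of_restrict (Lp.coeFn_smul r u) h0 h1] with t ht ht'
  rw [ht ht']
  simp
  ring

theorem abs_pair_le (c : C(Icc (0 : ℝ) 1, ℝ)) (i : Fin k) (u : Control k) :
    |pair c i u| ≤ ‖c‖ * ‖u‖ := by
  have h0 : (0 : ℝ) ∈ Icc (0 : ℝ) 1 := by simp
  have h1 : (1 : ℝ) ∈ Icc (0 : ℝ) 1 := by simp
  unfold pair
  rw [← Real.norm_eq_abs]
  refine (intervalIntegral.norm_integral_le_integral_norm zero_le_one).trans ?_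
  have hint : IntervalIntegrable (fun s => ‖u s‖) volume 0 1 := (u.intervalIntegrable h0 h1).norm
  calc ∫ t in (0 : ℝ)..1, ‖IccExtend zero_le_one c t * u t i‖
      ≤ ∫ t in (0 : ℝ)..1, ‖c‖ * ‖u t‖ := by
        apply intervalIntegral.integral_mono_on zero_le_one
        · exact (u.intervalIntegrable_mul i h0 h1 (c.continuous.Icc_extend').continuousOn).norm
        · exact hint.const_mul _
        · intro t _
          rw [norm_mul]
          gcongr
          · exact c.norm_coe_le_norm _
          · exact PiLp.norm_apply_le _ _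
    _ = ‖c‖ * ∫ t in (0 : ℝ)..1, ‖u t‖ := intervalIntegral.integral_const_mul _ _
    _ ≤ ‖c‖ * ‖u‖ := by gcongr; exact integral_norm_le u

/-- The pairing as a continuous bilinear map. -/
noncomputable def pairL (i : Fin k) : C(Icc (0 : ℝ) 1, ℝ) →L[ℝ] Control k →L[ℝ] ℝ :=
  LinearMap.mkContinuous₂
    (LinearMap.mk₂ ℝ (fun c u => pair c i u)
      (by intro c c' u; exact pair_add_left c c' i u)
      (by intro r c u; exact pair_smul_left r c i u)
      (by intro c u v; exact pair_add_right c i u v)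
      (by intro r c u; exact pair_smul_right r c i u))
    1 (by intro c u; rw [one_mul]; exact abs_pair_le c i u)

@[simp] theorem pairL_apply (i : Fin k) (c : C(Icc (0 : ℝ) 1, ℝ)) (u : Control k) :
    pairL i c u = pair c i u := rfl

end Pool.Agent.Helper19.SR
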