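import Mathlib
import Pool.Agent.Helper19.SR.Defs

set_option autoImplicit false

open MeasureTheory Set
open scoped ContDiff

namespace Pool.Agent.Helper19.SR

/-- `ℝ⁴` -/
abbrev R4 := EuclideanSpace ℝ (Fin 4)

/-- The function `G(x,y) = y² (3 a(x) - 2 y)`. -/
def Gfun (a : ℝ → ℝ) (x y : ℝ) : ℝ := y ^ 2 * (3 * a x - 2 * y)

/-- The first field of the frame. -/
noncomputable def field0 (a : ℝ → ℝ) (q : R4) : R4 :=
  !₂[1, 0, Gfun a (q 0) (q 1), q 0 * Gfun a (q 0) (q 1)]

/-- The second field of the frame. -/
noncomputable def field1 (_q : R4) : R4 := !₂[0, 1, 0, 0]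

/-- Auxiliary fields. -/
noncomputable def zfield (g : ℝ → ℝ → ℝ) (q : R4) : R4 :=
  !₂[0, 0, g (q 0) (q 1), q 0 * g (q 0) (q 1)]

theorem fderiv_coord {W : R4 → R4} {q : R4} (hW : DifferentiableAt ℝ W q) (v : R4) (i : Fin 4) :
    (fderiv ℝ W q v) i = deriv (fun s : ℝ => W (q + s • v) i) 0 := by
  have h1 : HasFDerivAt (fun p => W p i) ((EuclideanSpace.proj i).comp (fderiv ℝ W q)) q :=
    (EuclideanSpace.proj (𝕜 := ℝ) i).hasFDerivAt.comp q hW.hasFDerivAt
  have h2 := (h1.hasLineDerivAt v).lineDeriv
  rw [lineDeriv] at h2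
  rw [h2]
  rfl

theorem lieBracket_coord {V W : R4 → R4} {q : R4} (hV : DifferentiableAt ℝ V q)
    (hW : DifferentiableAt ℝ W q) (i : Fin 4) :
    (VectorField.lieBracket ℝ V W q) i =
      deriv (fun s : ℝ => W (q + s • V q) i) 0 - deriv (fun s : ℝ => V (q + s • W q) i) 0 := by
  rw [VectorField.lieBracket, ← fderiv_coord hW, ← fderiv_coord hV]
  rfl

variable {a : ℝ → ℝ}

theorem contDiff_field0 (ha : ContDiff ℝ ∞ a) : ContDiff ℝ ∞ (field0 a) := by
  rw [contDiff_euclidean]
  intro i
  fin_cases i
  · simp [field0]; fun_prop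
  · simp [field0]; fun_prop
  · simp [field0, Gfun]; fun_prop
  · simp [field0, Gfun]; fun_prop

theorem contDiff_field1 : ContDiff ℝ ∞ field1 := by
  unfold field1
  fun_prop

theorem contDiff_zfield {g : ℝ → ℝ → ℝ} (hg : ContDiff ℝ ∞ (fun p : ℝ × ℝ => g p.1 p.2)) :
    ContDiff ℝ ∞ (zfield g) := by
  have h : ContDiff ℝ ∞ (fun q : R4 => g (q 0) (q 1)) :=
    hg.comp (f := fun q : R4 => (q 0, q 1)) (by fun_prop)
  rw [contDiff_euclidean]
  intro i
  fin_cases i
  · simp [zfield]; fun_prop
  · simp [zfield]; fun_prop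
  · simpa [zfield] using h
  · simp [zfield]; fun_prop

theorem bracket_field1_field0 (ha : ContDiff ℝ ∞ a) :
    VectorField.lieBracket ℝ field1 (field0 a) =
      zfield (fun x y => 6 * y * (a x - y)) := by
  ext q i
  rw [lieBracket_coord (contDiff_field1.differentiable (by simp) q)
    ((contDiff_field0 ha).differentiable (by simp) q)]
  have key : HasDerivAt (fun s : ℝ => Gfun a (q 0) (q 1 + s))
      (6 * q 1 * (a (q 0) - q 1)) 0 := by
    have h1 : HasDerivAt (fun s : ℝ => q 1 + s) 1 0 := by
      simpa using (hasDerivAt_id (0 : ℝ)).const_add (q 1)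
    have h2 := (h1.pow 2).mul ((h1.const_mul 2).const_sub (3 * a (q 0)))
    refine (h2.congr_deriv ?_).congr_of_eventuallyEq (Filter.Eventually.of_forall fun s => ?_)
    · simp; ring
    · simp [Gfun]
  fin_cases i
  · simp [field0, field1, zfield]
  · simp [field0, field1, zfield]
  · simp [field0, field1, zfield, key.deriv]
  · simp [field0, field1, zfield, (key.const_mul (q 0)).deriv]

theorem bracket_field1_zfield {g g' : ℝ → ℝ → ℝ} (hg : ContDiff ℝ ∞ (fun p : ℝ × ℝ => g p.1 p.2))
    (hgg' : ∀ x y, HasDerivAt (fun s => g x s) (g' x y) y) :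
    VectorField.lieBracket ℝ field1 (zfield g) = zfield g' := by
  ext q i
  rw [lieBracket_coord (contDiff_field1.differentiable (by simp) q)
    ((contDiff_zfield hg).differentiable (by simp) q)]
  have key : HasDerivAt (fun s : ℝ => g (q 0) (q 1 + s)) (g' (q 0) (q 1)) 0 := by
    have h1 : HasDerivAt (fun s : ℝ => q 1 + s) 1 0 := by
      simpa using (hasDerivAt_id (0 : ℝ)).const_add (q 1)
    have h3 : HasDerivAt (fun s => g (q 0) s) (g' (q 0) (q 1)) (q 1 + 0) := by
      simpa using hgg' (q 0) (q 1)
    have h4 := h3.comp (0 : ℝ) h1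
    rw [mul_one] at h4
    exact h4
  fin_cases i
  · simp [field1, zfield]
  · simp [field1, zfield]
  · simp [field1, zfield, key.deriv]
  · simp [field1, zfield, (key.const_mul (q 0)).deriv]

theorem bracket_field0_zfield_const (ha : ContDiff ℝ ∞ a) (c : ℝ) :
    VectorField.lieBracket ℝ (field0 a) (zfield (fun _ _ => c)) = fun _ => !₂[0, 0, 0, c] := by
  ext q i
  rw [lieBracket_coord ((contDiff_field0 ha).differentiable (by simp) q)
    ((contDiff_zfield (g := fun _ _ => c) contDiff_const).differentiable (by simp) q)]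
  have key : HasDerivAt (fun s : ℝ => (q 0 + s) * c) c 0 := by
    have h1 : HasDerivAt (fun s : ℝ => q 0 + s) 1 0 := by
      simpa using (hasDerivAt_id (0 : ℝ)).const_add (q 0)
    simpa using h1.mul_const c
  fin_cases i
  · simp [field0, zfield]
  · simp [field0, zfield]
  · simp [field0, zfield]
  · simp [field0, zfield, key.deriv]

/-- The sub-Riemannian structure on `ℝ⁴`. -/
noncomputable def frame (a : ℝ → ℝ) (ha : ContDiff ℝ ∞ a) : SubRiemannianFrame 4 2 where
  X := ![field0 a, field1]
  smooth := by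
    intro i
    fin_cases i
    · exact contDiff_field0 ha
    · exact contDiff_field1
  linearIndependent := by
    intro q
    rw [Fintype.linearIndependent_iff]
    intro g hg
    have h0 := congrArg (fun v : R4 => v 0) hg
    have h1 := congrArg (fun v : R4 => v 1) hg
    simp [Fin.sum_univ_two, field0, field1] at h0 h1
    intro i
    fin_cases i
    · exact h0
    · exact h1
  bracketGenerating := by
    intro q
    have b0 : IsIteratedBracket ![field0 a, field1] (field0 a) := IsIteratedBracket.base (0 : Fin 2)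
    have b1 : IsIteratedBracket ![field0 a, field1] field1 := IsIteratedBracket.base (1 : Fin 2)
    have hs1 : ContDiff ℝ ∞ (fun p : ℝ × ℝ => 6 * p.2 * (a p.1 - p.2)) := by
      have : ContDiff ℝ ∞ (fun p : ℝ × ℝ => a p.1) := ha.comp contDiff_fst
      fun_prop
    have hs2 : ContDiff ℝ ∞ (fun p : ℝ × ℝ => 6 * a p.1 - 12 * p.2) := by
      have : ContDiff ℝ ∞ (fun p : ℝ × ℝ => a p.1) := ha.comp contDiff_fst
      fun_prop
    have b2 : IsIteratedBracket ![field0 a, field1] (zfield (fun x y => 6 * y * (a x - y))) := by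
      rw [← bracket_field1_field0 ha]
      exact b1.bracket b0
    have b3 : IsIteratedBracket ![field0 a, field1] (zfield (fun x y => 6 * a x - 12 * y)) := by
      rw [← bracket_field1_zfield (g := fun x y => 6 * y * (a x - y)) hs1]
      · exact b1.bracket b2
      · intro x y
        have h1 := ((hasDerivAt_id y).const_mul 6).mul ((hasDerivAt_id y).const_sub (a x))
        refine (h1.congr_deriv ?_).congr_of_eventuallyEq (Filter.Eventually.of_forall fun s => ?_)
        · simp; ring
        · simp
    have b4 : IsIteratedBracket ![field0 a, field1] (zfield (fun _ _ => -12)) := by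
      rw [← bracket_field1_zfield (g := fun x y => 6 * a x - 12 * y) hs2]
      · exact b1.bracket b3
      · intro x y
        have h1 := ((hasDerivAt_id y).const_mul 12).const_sub (6 * a x)
        refine (h1.congr_deriv ?_).congr_of_eventuallyEq (Filter.Eventually.of_forall fun s => ?_)
        · simp
        · simp
    have b5 : IsIteratedBracket ![field0 a, field1] (fun _ => !₂[0, 0, 0, -12]) := by
      rw [← bracket_field0_zfield_const ha]
      exact b0.bracket b4
    rw [eq_top_iff]
    intro v _
    set S := Submodule.span ℝ {v | ∃ V, IsIteratedBracket ![field0 a, field1] V ∧ V q = v}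
      with hS
    have m0 : field0 a q ∈ S := Submodule.subset_span ⟨_, b0, rfl⟩
    have m1 : field1 q ∈ S := Submodule.subset_span ⟨_, b1, rfl⟩
    have m4 : zfield (fun _ _ => -12) q ∈ S := Submodule.subset_span ⟨_, b4, rfl⟩
    have m5 : (!₂[0, 0, 0, -12] : R4) ∈ S := Submodule.subset_span ⟨_, b5, rfl⟩
    have hv : v = v 0 • field0 a q + v 1 • field1 q
        + ((v 0 * Gfun a (q 0) (q 1) - v 2) / 12) • zfield (fun _ _ => -12) q
        + ((q 0 * v 2 - v 3) / 12) • (!₂[0, 0, 0, -12] : R4) := by
      ext i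
      fin_cases i
      · simp [field0, field1, zfield]
      · simp [field0, field1, zfield]
      · simp [field0, field1, zfield]
      · simp [field0, field1, zfield]
        ring
    rw [hv]
    exact S.add_mem (S.add_mem (S.add_mem (S.smul_mem _ m0) (S.smul_mem _ m1))
      (S.smul_mem _ m4)) (S.smul_mem _ m5)

end Pool.Agent.Helper19.SR
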