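import Mathlib
import Pool.Agent.Helper19.SR.System
import Pool.Agent.Helper19.SR.Control
import Pool.Agent.Helper19.Nemytskii

set_option autoImplicit false

open MeasureTheory Set
open scoped ContDiff

namespace Pool.Agent.Helper19.SR

variable {a : ℝ → ℝ}

/-- `G` as a function on `ℝ²`. -/
noncomputable def Gp (a : ℝ → ℝ) (p : EuclideanSpace ℝ (Fin 2)) : ℝ := Gfun a (p 0) (p 1)

theorem contDiff_Gp (ha : ContDiff ℝ ∞ a) : ContDiff ℝ ∞ (Gp a) := by
  have : ContDiff ℝ ∞ (fun p : EuclideanSpace ℝ (Fin 2) => a (p 0)) := ha.comp (by fun_prop)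
  unfold Gp Gfun
  fun_prop

/-- `(p₀ - s) G(p)` as a function on `ℝ²`. -/
noncomputable def Hp (a : ℝ → ℝ) (s : ℝ) (p : EuclideanSpace ℝ (Fin 2)) : ℝ :=
  (p 0 - s) * Gp a p

theorem contDiff_Hp (ha : ContDiff ℝ ∞ a) (s : ℝ) : ContDiff ℝ ∞ (Hp a s) := by
  have := contDiff_Gp ha
  unfold Hp
  fun_prop

/-- The scalar functional `u ↦ ∫₀¹ H(x,y) u₀ dt`. -/
noncomputable def functional (H : EuclideanSpace ℝ (Fin 2) → ℝ) (u : Control 2) : ℝ :=
  ∫ t in (0 : ℝ)..1, H (prim u t) * u t 0

theorem functional_eq {H : EuclideanSpace ℝ (Fin 2) → ℝ} (hH : Continuous H) (u : Control 2) :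
    functional H u = pair (nem H hH (primL u)) 0 u := by
  unfold functional pair
  apply intervalIntegral.integral_congr
  intro t ht
  rw [uIcc_of_le zero_le_one] at ht
  simp only
  rw [IccExtend_of_mem zero_le_one _ ht]
  rfl

theorem contDiff_functional {H : EuclideanSpace ℝ (Fin 2) → ℝ} (hH : ContDiff ℝ ∞ H) :
    ContDiff ℝ ∞ (functional H) := by
  have h1 : functional H = fun u => pairL 0 (nem H hH.continuous (primL u)) u := by
    ext u
    rw [functional_eq hH.continuous]
    rfl
  rw [h1]
  have h2 : ContDiff ℝ ∞ (fun u : Control 2 => nem H hH.continuous (primL u)) :=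
    (contDiff_nem hH).comp (primL (k := 2)).contDiff
  exact ((pairL (k := 2) 0).contDiff.comp h2).clm_apply contDiff_id

theorem fderiv_functional {H : EuclideanSpace ℝ (Fin 2) → ℝ} (hH : ContDiff ℝ ∞ H)
    (u v : Control 2) :
    fderiv ℝ (functional H) u v =
      ∫ t in (0 : ℝ)..1, (fderiv ℝ H (prim u t) (prim v t) * u t 0 + H (prim u t) * v t 0) := by
  have hH1 : ContDiff ℝ 1 H := hH.of_le (by exact_mod_cast le_top)
  have hcont : Continuous (fderiv ℝ H) := hH1.continuous_fderiv one_ne_zero
  have h0 : (0 : ℝ) ∈ Icc (0 : ℝ) 1 := by simp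
  have h1' : (1 : ℝ) ∈ Icc (0 : ℝ) 1 := by simp
  have h1 : functional H = fun u => pairL 0 (nem H hH.continuous (primL u)) u := by
    ext u
    rw [functional_eq hH.continuous]
    rfl
  have h2 : HasFDerivAt (fun u : Control 2 => nem H hH.continuous (primL u))
      ((mulOp (nem (fderiv ℝ H) hcont (primL u))).comp (primL (k := 2))) u :=
    (hasFDerivAt_nem hH1 (primL u)).comp u (primL (k := 2)).hasFDerivAt
  have h3 := ((pairL (k := 2) 0).hasFDerivAt.comp u h2).clm_apply (hasFDerivAt_id u)
  have h5 : fderiv ℝ (functional H) u v = pair (nem H hH.continuous (primL u)) 0 v +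
      pair (mulOp (nem (fderiv ℝ H) hcont (primL u)) (primL v)) 0 u := by
    rw [h1]
    exact congrArg (fun L => L v) h3.fderiv
  rw [h5]
  unfold pair
  rw [← intervalIntegral.integral_add]
  · apply intervalIntegral.integral_congr
    intro t ht
    rw [uIcc_of_le zero_le_one] at ht
    simp only
    rw [IccExtend_of_mem zero_le_one _ ht, IccExtend_of_mem zero_le_one _ ht, mulOp_apply]
    simp only [nem_apply, primL_apply]
    ring
  · exact v.intervalIntegrable_mul 0 h0 h1' (ContinuousMap.continuous _).Icc_extend'.continuousOn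
  · exact u.intervalIntegrable_mul 0 h0 h1' (ContinuousMap.continuous _).Icc_extend'.continuousOn


theorem prim_apply (u : Control 2) {t : ℝ} (ht : t ∈ Icc (0 : ℝ) 1) (i : Fin 2) :
    prim u t i = ∫ s in (0 : ℝ)..t, u s i := by
  have h0 : (0 : ℝ) ∈ Icc (0 : ℝ) 1 := by simp
  unfold prim
  exact ((EuclideanSpace.proj (𝕜 := ℝ) i).intervalIntegral_comp_comm
    (u.intervalIntegrable h0 ht)).symm

/-- The endpoint map of the structure `frame a` from the origin. -/
noncomputable def endMap (a : ℝ → ℝ) (u : Control 2) : R4 :=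
  !₂[prim u 1 0, prim u 1 1, functional (Gp a) u, functional (Hp a 0) u]

theorem contDiff_endMap (ha : ContDiff ℝ ∞ a) : ContDiff ℝ ∞ (endMap a) := by
  have hp : ∀ i : Fin 2, ContDiff ℝ ∞ (fun u : Control 2 => prim u 1 i) := by
    intro i
    have h1 : (fun u : Control 2 => prim u 1 i) =
        fun u => (EuclideanSpace.proj (𝕜 := ℝ) i)
          (ContinuousMap.evalCLM ℝ (⟨1, by simp⟩ : Icc (0 : ℝ) 1) (primL (k := 2) u)) := by
      ext u
      rfl
    rw [h1]
    exact (EuclideanSpace.proj (𝕜 := ℝ) i).contDiff.comp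
      ((ContinuousMap.evalCLM ℝ (⟨1, by simp⟩ : Icc (0 : ℝ) 1)).contDiff.comp
        (primL (k := 2)).contDiff)
  rw [contDiff_euclidean]
  intro i
  fin_cases i
  · simpa [endMap] using hp 0
  · simpa [endMap] using hp 1
  · simpa [endMap] using contDiff_functional (contDiff_Gp ha)
  · simpa [endMap] using contDiff_functional (contDiff_Hp ha 0)

theorem isEndpointMap_endMap (ha : ContDiff ℝ ∞ a) :
    IsEndpointMap (frame a ha) 0 (endMap a) := by
  have h0 : (0 : ℝ) ∈ Icc (0 : ℝ) 1 := by simp
  have h1 : (1 : ℝ) ∈ Icc (0 : ℝ) 1 := by simp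
  intro u
  have hsum : ∀ (γ : ℝ → R4) (s : ℝ), ∑ i, (u s) i • (frame a ha).X i (γ s) =
      u s 0 • field0 a (γ s) + u s 1 • field1 (γ s) := by
    intro γ s
    rw [Fin.sum_univ_two]
    rfl
  -- integrability of the right-hand side along a continuous curve
  have hint : ∀ γ : ℝ → R4, ContinuousOn γ (Icc 0 1) → ∀ t ∈ Icc (0 : ℝ) 1,
      IntervalIntegrable (fun s => ∑ i, (u s) i • (frame a ha).X i (γ s)) volume 0 t := by
    intro γ hγ t ht
    simp only [hsum]
    have hsub : uIcc 0 t ⊆ Icc (0 : ℝ) 1 := uIcc_subset_Icc h0 ht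
    have c0 : ContinuousOn (fun s => field0 a (γ s)) (uIcc 0 t) :=
      (contDiff_field0 ha).continuous.comp_continuousOn (hγ.mono hsub)
    have c1 : ContinuousOn (fun s => field1 (γ s)) (uIcc 0 t) :=
      contDiff_field1.continuous.comp_continuousOn (hγ.mono hsub)
    exact ((u.intervalIntegrable_apply 0 h0 ht).smul_continuousOn c0).add
      ((u.intervalIntegrable_apply 1 h0 ht).smul_continuousOn c1)
  have hcoord : ∀ γ : ℝ → R4, ContinuousOn γ (Icc 0 1) → ∀ t ∈ Icc (0 : ℝ) 1, ∀ i : Fin 4,
      ((0 : R4) + ∫ s in (0 : ℝ)..t, ∑ i, (u s) i • (frame a ha).X i (γ s)) i =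
        ∫ s in (0 : ℝ)..t, (u s 0 • field0 a (γ s) + u s 1 • field1 (γ s)) i := by
    intro γ hγ t ht i
    rw [zero_add]
    have := (EuclideanSpace.proj (𝕜 := ℝ) i).intervalIntegral_comp_comm (hint γ hγ t ht)
    simp only [hsum] at this ⊢
    exact this.symm
  constructor
  · have hG : ContinuousOn (fun s => Gp a (prim u s)) (Icc 0 1) :=
      (contDiff_Gp ha).continuous.comp_continuousOn (continuousOn_prim u)
    have hH : ContinuousOn (fun s => Hp a 0 (prim u s)) (Icc 0 1) :=
      (contDiff_Hp ha 0).continuous.comp_continuousOn (continuousOn_prim u)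
    have hprimcont : ∀ i : Fin 2, ContinuousOn (fun t => prim u t i) (Icc 0 1) := by
      intro i
      exact (EuclideanSpace.proj (𝕜 := ℝ) i).continuous.comp_continuousOn (continuousOn_prim u)
    have hintc : ∀ F : ℝ → ℝ, ContinuousOn F (Icc 0 1) →
        ContinuousOn (fun t => ∫ s in (0 : ℝ)..t, F s * u s 0) (Icc 0 1) := by
      intro F hF
      have h2 := u.intervalIntegrable_mul 0 h0 h1 hF
      have := intervalIntegral.continuousOn_primitive_interval (μ := volume) (a := (0 : ℝ))
        (b := 1) (f := fun s => F s * u s 0)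
        (by
          rw [uIcc_of_le zero_le_one, integrableOn_Icc_iff_integrableOn_Ioc]
          exact h2.1)
      rwa [uIcc_of_le zero_le_one] at this
    have hcont : ContinuousOn (fun t => (!₂[prim u t 0, prim u t 1,
        ∫ s in (0 : ℝ)..t, Gp a (prim u s) * u s 0,
        ∫ s in (0 : ℝ)..t, Hp a 0 (prim u s) * u s 0] : R4)) (Icc 0 1) := by
      refine (PiLp.continuous_toLp 2 _).comp_continuousOn ?_
      rw [continuousOn_pi]
      intro i
      fin_cases i
      · exact hprimcont 0
      · exact hprimcont 1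
      · exact hintc _ hG
      · exact hintc _ hH
    refine ⟨fun t => !₂[prim u t 0, prim u t 1, ∫ s in (0 : ℝ)..t, Gp a (prim u s) * u s 0,
      ∫ s in (0 : ℝ)..t, Hp a 0 (prim u s) * u s 0], hcont, ?_⟩
    intro t ht
    ext i
    rw [hcoord _ hcont t ht]
    fin_cases i
    · simp [field0, field1, prim_apply u ht]
    · simp [field0, field1, prim_apply u ht]
    · simp only [Fin.reduceFinMk]
      apply intervalIntegral.integral_congr
      intro s _
      simp [field0, field1, Gp]
      ring
    · simp only [Fin.reduceFinMk]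
      apply intervalIntegral.integral_congr
      intro s _
      simp [field0, field1, Gp, Hp]
      ring
  · intro γ hγ
    have e0 : ∀ t ∈ Icc (0 : ℝ) 1, γ t 0 = prim u t 0 := by
      intro t ht
      rw [hγ.2 t ht, hcoord γ hγ.1 t ht, prim_apply u ht]
      simp [field0, field1]
    have e1 : ∀ t ∈ Icc (0 : ℝ) 1, γ t 1 = prim u t 1 := by
      intro t ht
      rw [hγ.2 t ht, hcoord γ hγ.1 t ht, prim_apply u ht]
      simp [field0, field1]
    ext i
    fin_cases i
    · simp [endMap, e0 1 h1]
    · simp [endMap, e1 1 h1]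
    · simp only [Fin.reduceFinMk]
      rw [hγ.2 1 h1, hcoord γ hγ.1 1 h1]
      simp only [endMap, functional]
      apply intervalIntegral.integral_congr
      intro t ht
      rw [uIcc_of_le zero_le_one] at ht
      simp [field0, field1, e0 t ht, e1 t ht, Gp]
      ring
    · simp only [Fin.reduceFinMk]
      rw [hγ.2 1 h1, hcoord γ hγ.1 1 h1]
      simp only [endMap, functional]
      apply intervalIntegral.integral_congr
      intro t ht
      rw [uIcc_of_le zero_le_one] at ht
      simp [field0, field1, e0 t ht, e1 t ht, Gp, Hp]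
      ring

end Pool.Agent.Helper19.SR
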