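import Mathlib
import Pool.Agent.Helper19.SR.Bump

set_option autoImplicit false

open MeasureTheory Set Filter
open scoped ContDiff Topology

namespace Pool.Agent.Helper19.SR

theorem psi_le_one (s : ℝ) : psi s ≤ 1 := by
  have h : ∀ x, expNegInvGlue x ≤ 1 := by
    intro x
    unfold expNegInvGlue
    split_ifs with hx
    · exact zero_le_one
    · rw [Real.exp_le_one_iff]
      have : 0 < x⁻¹ := inv_pos.2 (not_le.1 hx)
      linarith
  unfold psi
  calc expNegInvGlue s * expNegInvGlue (1 - s) ≤ 1 * 1 :=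
        mul_le_mul (h _) (h _) (expNegInvGlue.nonneg _) zero_le_one
    _ = 1 := one_mul 1

theorem bump_le_one (k : ℕ) (x : ℝ) : bump k x ≤ 1 := psi_le_one _

/-- Weighted cube moments of a bump. -/
noncomputable def mom (w : ℝ → ℝ) (k : ℕ) : ℝ :=
  (1 / 8) ^ k * ∫ x in (0 : ℝ)..1, w x * bump k x ^ 3

theorem hasSum_train {w : ℝ → ℝ} (hw : Continuous w) (hw1 : ∀ x ∈ Icc (0 : ℝ) 1, |w x| ≤ 1)
    {e : ℕ → ℝ} (he : ∀ k, e k = 0 ∨ e k = 1) :
    HasSum (fun k => e k * mom w k) (∫ x in (0 : ℝ)..1, w x * train e x ^ 3) := by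
  have key := intervalIntegral.hasSum_integral_of_dominated_convergence (μ := volume)
    (a := (0 : ℝ)) (b := 1) (ι := ℕ)
    (F := fun k x => e k * ((1 / 8) ^ k * (w x * bump k x ^ 3)))
    (f := fun x => w x * train e x ^ 3) (fun k _ => (1 / 8 : ℝ) ^ k) ?_ ?_ ?_ ?_ ?_
  · have h : (fun k => e k * mom w k) =
        fun k => ∫ x in (0 : ℝ)..1, e k * ((1 / 8) ^ k * (w x * bump k x ^ 3)) := by
      funext k
      unfold mom
      rw [← intervalIntegral.integral_const_mul, ← intervalIntegral.integral_const_mul]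
    rw [h]
    exact key
  · intro k
    have := (contDiff_bump k).continuous
    exact Continuous.aestronglyMeasurable (by fun_prop)
  · intro k
    filter_upwards with x hx
    rw [uIoc_of_le zero_le_one] at hx
    have h1 : |e k| ≤ 1 := by rcases he k with h | h <;> simp [h]
    have h2 := hw1 x ⟨hx.1.le, hx.2⟩
    have h3 : |bump k x ^ 3| ≤ 1 := by
      rw [abs_of_nonneg (pow_nonneg (bump_nonneg k x) 3)]
      exact pow_le_one₀ (bump_nonneg k x) (bump_le_one k x)
    rw [norm_mul, norm_mul, norm_mul, Real.norm_eq_abs, Real.norm_eq_abs, Real.norm_eq_abs,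
      Real.norm_eq_abs, abs_of_nonneg (by positivity : (0 : ℝ) ≤ (1 / 8) ^ k)]
    calc |e k| * ((1 / 8) ^ k * (|w x| * |bump k x ^ 3|))
        ≤ 1 * ((1 / 8) ^ k * (1 * 1)) := by gcongr
      _ = (1 / 8) ^ k := by ring
  · filter_upwards with x hx
    exact summable_geometric_of_lt_one (by norm_num) (by norm_num)
  · exact intervalIntegrable_const
  · filter_upwards with x hx
    by_cases h : ∃ k, bump k x ≠ 0
    · obtain ⟨k, hk⟩ := h
      rw [train_eq_of_ne hk]
      have hcube : w x * (e k * (1 / 2) ^ k * bump k x) ^ 3 =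
          e k * ((1 / 8) ^ k * (w x * bump k x ^ 3)) := by
        have h8 : ((1 / 2 : ℝ) ^ k) ^ 3 = (1 / 8) ^ k := by
          rw [← pow_mul, mul_comm k 3, pow_mul]
          norm_num
        have he3 : e k ^ 3 = e k := by rcases he k with h | h <;> simp [h]
        calc w x * (e k * (1 / 2) ^ k * bump k x) ^ 3 =
            e k ^ 3 * (((1 / 2 : ℝ) ^ k) ^ 3 * (w x * bump k x ^ 3)) := by ring
          _ = _ := by rw [h8, he3]
      rw [hcube]
      apply hasSum_single
      intro l hl
      have : bump l x = 0 := by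
        by_contra hc
        exact hl (bump_unique hc hk)
      simp [this]
    · push Not at h
      rw [train_eq_zero h]
      simp only [h]
      simp

/-- The integral of `ψ³`. -/
noncomputable def kap : ℝ := ∫ x in (0 : ℝ)..1, psi x ^ 3

theorem kap_pos : 0 < kap := by
  have hc := contDiff_psi.continuous
  apply intervalIntegral.intervalIntegral_pos_of_pos_on
  · exact Continuous.intervalIntegrable (by fun_prop) _ _
  · intro x hx
    exact pow_pos (psi_pos hx.1 hx.2) 3
  · exact zero_lt_one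

theorem support_psi_cube {a b : ℝ} (ha : a ≤ 0) (hb : 1 ≤ b) :
    Function.support (fun x => psi x ^ 3) ⊆ Ioc a b := by
  intro x hx
  have hx' : psi x ≠ 0 := by
    intro h
    apply hx
    simp [h]
  obtain ⟨h1, h2⟩ := psi_ne_zero hx'
  exact ⟨ha.trans_lt h1, h2.le.trans hb⟩

theorem integral_bump_cube (k : ℕ) : ∫ x in (0 : ℝ)..1, bump k x ^ 3 = kap / alph k := by
  have h1 := intervalIntegral.integral_comp_mul_sub (a := (0 : ℝ)) (b := 1)
    (f := fun x => psi x ^ 3) (c := alph k) (alph_pos k).ne' ((k : ℝ) + 1)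
  have hk : (0 : ℝ) ≤ k := Nat.cast_nonneg k
  have h2 : ∫ x in (alph k * 0 - ((k : ℝ) + 1))..(alph k * 1 - ((k : ℝ) + 1)), psi x ^ 3 = kap := by
    rw [intervalIntegral.integral_eq_integral_of_support_subset (support_psi_cube _ _), kap,
      intervalIntegral.integral_eq_integral_of_support_subset (support_psi_cube le_rfl le_rfl)]
    · simp
      linarith
    · unfold alph
      nlinarith
  rw [h2] at h1
  have h3 : ∫ x in (0 : ℝ)..1, bump k x ^ 3 = (alph k)⁻¹ • kap := h1
  rw [h3, smul_eq_mul]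
  field_simp

/-- The masses of the lenses. -/
noncomputable def cc (k : ℕ) : ℝ := mom (fun _ => 1) k

/-- The first moments of the lenses. -/
noncomputable def dd (k : ℕ) : ℝ := mom (fun x => x) k

theorem cc_eq (k : ℕ) : cc k = (1 / 8) ^ k * (kap / alph k) := by
  unfold cc mom
  simp only [one_mul]
  rw [integral_bump_cube]

theorem cc_pos (k : ℕ) : 0 < cc k := by
  rw [cc_eq]
  have := kap_pos
  have := alph_pos k
  positivity

theorem cc_le (k : ℕ) : cc k ≤ 24 * cc (k + 1) := by
  rw [cc_eq, cc_eq]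
  have h1 := kap_pos
  have h2 := alph_pos k
  have h3 := alph_pos (k + 1)
  have h4 : alph (k + 1) ≤ 3 * alph k := by
    unfold alph
    push_cast
    have hk : (0 : ℝ) ≤ k := Nat.cast_nonneg k
    nlinarith
  have h5 : kap / alph k ≤ 3 * (kap / alph (k + 1)) := by
    rw [div_le_iff₀ h2]
    have : 3 * (kap / alph (k + 1)) * alph k = kap * (3 * alph k) / alph (k + 1) := by ring
    rw [this, le_div_iff₀ h3]
    gcongr
  calc (1 / 8 : ℝ) ^ k * (kap / alph k) ≤ (1 / 8) ^ k * (3 * (kap / alph (k + 1))) := by gcongr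
    _ = 24 * ((1 / 8) ^ (k + 1) * (kap / alph (k + 1))) := by rw [pow_succ]; ring

theorem cc_tendsto : Tendsto cc atTop (𝓝 0) := by
  have h1 : ∀ k, cc k ≤ kap * (1 / 8) ^ k := by
    intro k
    rw [cc_eq]
    have h1 := kap_pos
    have h2 : 1 ≤ alph k := by
      unfold alph
      have hk : (0 : ℝ) ≤ k := Nat.cast_nonneg k
      nlinarith
    have h3 : kap / alph k ≤ kap := div_le_self h1.le h2
    calc (1 / 8 : ℝ) ^ k * (kap / alph k) ≤ (1 / 8) ^ k * kap := by gcongr
      _ = kap * (1 / 8) ^ k := mul_comm _ _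
  have h2 : Tendsto (fun k : ℕ => kap * (1 / 8 : ℝ) ^ k) atTop (𝓝 0) := by
    simpa using (tendsto_pow_atTop_nhds_zero_of_lt_one (r := (1 / 8 : ℝ)) (by norm_num)
      (by norm_num)).const_mul kap
  exact squeeze_zero (fun k => (cc_pos k).le) h1 h2

theorem dd_bounds (k : ℕ) : cc k ≤ ((k : ℝ) + 2) * dd k ∧ ((k : ℝ) + 1) * dd k ≤ cc k := by
  have hc := (contDiff_bump k).continuous
  have hp : (0 : ℝ) ≤ (1 / 8) ^ k := pow_nonneg (by norm_num) k
  have h1 : ∫ x in (0 : ℝ)..1, 1 * bump k x ^ 3 ≤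
      ((k : ℝ) + 2) * ∫ x in (0 : ℝ)..1, x * bump k x ^ 3 := by
    rw [← intervalIntegral.integral_const_mul]
    apply intervalIntegral.integral_mono_on zero_le_one
    · exact Continuous.intervalIntegrable (by fun_prop) _ _
    · exact Continuous.intervalIntegrable (by fun_prop) _ _
    · intro x hx
      by_cases h : bump k x = 0
      · simp [h]
      · have h1 := (bump_ne_zero h).2.1
        rw [← mul_assoc]
        have h2 := pow_nonneg (bump_nonneg k x) 3
        gcongr
  have h2 : ((k : ℝ) + 1) * ∫ x in (0 : ℝ)..1, x * bump k x ^ 3 ≤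
      ∫ x in (0 : ℝ)..1, 1 * bump k x ^ 3 := by
    rw [← intervalIntegral.integral_const_mul]
    apply intervalIntegral.integral_mono_on zero_le_one
    · exact Continuous.intervalIntegrable (by fun_prop) _ _
    · exact Continuous.intervalIntegrable (by fun_prop) _ _
    · intro x hx
      by_cases h : bump k x = 0
      · simp [h]
      · have h1 := (bump_ne_zero h).2.2
        rw [← mul_assoc]
        have h2 := pow_nonneg (bump_nonneg k x) 3
        gcongr
  unfold cc dd mom
  constructor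
  · rw [mul_left_comm ((k : ℝ) + 2)]
    exact mul_le_mul_of_nonneg_left h1 hp
  · rw [mul_left_comm ((k : ℝ) + 1)]
    exact mul_le_mul_of_nonneg_left h2 hp

theorem dd_pos (k : ℕ) : 0 < dd k := by
  have h1 := (dd_bounds k).1
  have h2 := cc_pos k
  have hk : (0 : ℝ) < (k : ℝ) + 2 := by positivity
  by_contra hc
  rw [not_lt] at hc
  nlinarith [mul_nonneg hk.le (neg_nonneg.2 hc)]

theorem dd_le (k : ℕ) : dd k ≤ 72 * dd (k + 1) := by
  have h1 := (dd_bounds k).2
  have h2 := (dd_bounds (k + 1)).1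
  have h3 := cc_le k
  have h4 := dd_pos (k + 1)
  have hk : (0 : ℝ) ≤ k := Nat.cast_nonneg k
  push_cast at h2
  have h5 : ((k : ℝ) + 1) * dd k ≤ 24 * (((k : ℝ) + 1 + 2) * dd (k + 1)) := by linarith
  have h6 : ((k : ℝ) + 1) * dd k ≤ ((k : ℝ) + 1) * (72 * dd (k + 1)) := by
    refine h5.trans ?_
    nlinarith [mul_nonneg hk h4.le]
  exact le_of_mul_le_mul_left h6 (by positivity)

theorem dd_tendsto : Tendsto dd atTop (𝓝 0) := by
  refine squeeze_zero (fun k => (dd_pos k).le) (fun k => ?_) cc_tendsto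
  have h1 := (dd_bounds k).2
  have hk : (0 : ℝ) ≤ k := Nat.cast_nonneg k
  nlinarith [mul_nonneg hk (dd_pos k).le]

end Pool.Agent.Helper19.SR
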