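import Mathlib
import Pool.Agent.Helper19.SR.System

set_option autoImplicit false

open MeasureTheory Set
open scoped ContDiff

namespace Pool.Agent.Helper19.SR

/-- The integral of the one-form `F(x,y) dx` along the curve `(x,y)` on `[0,1]`. -/
noncomputable def lineInt (F : ℝ → ℝ → ℝ) (x y : ℝ → ℝ) : ℝ :=
  ∫ t in (0 : ℝ)..1, F (x t) (y t) * deriv x t

/-- A `C¹` curve from `p` to `q`, constant outside `[0,1]`, along which
`(x - s) y (a(x) - y) = 0`, and along which the integrals of `G dx` and `x G dx` are `w`. -/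
def SPath (a : ℝ → ℝ) (s : ℝ) (p q w : ℝ × ℝ) : Prop :=
  ∃ x y : ℝ → ℝ, ContDiff ℝ 1 x ∧ ContDiff ℝ 1 y ∧
    (∀ t ≤ 0, x t = p.1 ∧ y t = p.2) ∧ (∀ t, 1 ≤ t → x t = q.1 ∧ y t = q.2) ∧
    (∀ t, (x t - s) * (y t * (a (x t) - y t)) = 0) ∧
    lineInt (Gfun a) x y = w.1 ∧ lineInt (fun x y => x * Gfun a x y) x y = w.2

theorem deriv_zero_of_const_le {x : ℝ → ℝ} {c d : ℝ} (h : ∀ t ≤ c, x t = d) {t : ℝ} (ht : t < c) :
    deriv x t = 0 := by
  have : x =ᶠ[nhds t] fun _ => d := by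
    filter_upwards [Iic_mem_nhds ht] with r hr using h r hr
  rw [this.deriv_eq]
  simp

theorem deriv_zero_of_const_ge {x : ℝ → ℝ} {c d : ℝ} (h : ∀ t, c ≤ t → x t = d) {t : ℝ}
    (ht : c < t) : deriv x t = 0 := by
  have : x =ᶠ[nhds t] fun _ => d := by
    filter_upwards [Ici_mem_nhds ht] with r hr using h r hr
  rw [this.deriv_eq]
  simp

theorem lineInt_concat {F : ℝ → ℝ → ℝ} {x₁ y₁ x₂ y₂ : ℝ → ℝ}
    (hF : Continuous (fun p : ℝ × ℝ => F p.1 p.2))
    (hx₁ : ContDiff ℝ 1 x₁) (hy₁ : ContDiff ℝ 1 y₁) (hx₂ : ContDiff ℝ 1 x₂)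
    (hy₂ : ContDiff ℝ 1 y₂) {m : ℝ × ℝ}
    (h₁ : ∀ t, 1 ≤ t → x₁ t = m.1 ∧ y₁ t = m.2) (h₂ : ∀ t ≤ 0, x₂ t = m.1 ∧ y₂ t = m.2) :
    lineInt F (fun t => x₁ (2 * t) + x₂ (2 * t - 1) - m.1)
      (fun t => y₁ (2 * t) + y₂ (2 * t - 1) - m.2) = lineInt F x₁ y₁ + lineInt F x₂ y₂ := by
  have hd : ∀ t, deriv (fun t => x₁ (2 * t) + x₂ (2 * t - 1) - m.1) t =
      2 * deriv x₁ (2 * t) + 2 * deriv x₂ (2 * t - 1) := by
    intro t
    have e1 : HasDerivAt (fun t : ℝ => 2 * t) 2 t := by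
      simpa using (hasDerivAt_id t).const_mul 2
    have e2 : HasDerivAt (fun t : ℝ => 2 * t - 1) 2 t := e1.sub_const 1
    have h1 := (hx₁.differentiable one_ne_zero (2 * t)).hasDerivAt.comp t e1
    have h2 := (hx₂.differentiable one_ne_zero (2 * t - 1)).hasDerivAt.comp t e2
    have := ((h1.add h2).sub_const m.1).deriv
    simp only [Function.comp_def, Pi.add_apply] at this
    rw [mul_comm 2, mul_comm 2 (deriv x₂ _)]
    exact this
  have c1 : Continuous (deriv x₁) := hx₁.continuous_deriv le_rfl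
  have c2 : Continuous (deriv x₂) := hx₂.continuous_deriv le_rfl
  have cx1 := hx₁.continuous
  have cx2 := hx₂.continuous
  have cy1 := hy₁.continuous
  have cy2 := hy₂.continuous
  unfold lineInt
  simp only [hd]
  have hcont : Continuous (fun t => F (x₁ (2 * t) + x₂ (2 * t - 1) - m.1)
      (y₁ (2 * t) + y₂ (2 * t - 1) - m.2) *
      (2 * deriv x₁ (2 * t) + 2 * deriv x₂ (2 * t - 1))) := by
    refine Continuous.mul ?_ (by fun_prop)
    exact hF.comp (f := fun t => (x₁ (2 * t) + x₂ (2 * t - 1) - m.1,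
      y₁ (2 * t) + y₂ (2 * t - 1) - m.2)) (by fun_prop)
  rw [← intervalIntegral.integral_add_adjacent_intervals (b := 1 / 2)
    (hcont.intervalIntegrable _ _) (hcont.intervalIntegrable _ _)]
  congr 1
  · have h3 : ∫ t in (0 : ℝ)..(1 / 2), F (x₁ (2 * t) + x₂ (2 * t - 1) - m.1)
        (y₁ (2 * t) + y₂ (2 * t - 1) - m.2) *
        (2 * deriv x₁ (2 * t) + 2 * deriv x₂ (2 * t - 1)) =
        ∫ t in (0 : ℝ)..(1 / 2), 2 * (F (x₁ (2 * t)) (y₁ (2 * t)) * deriv x₁ (2 * t)) := by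
      apply intervalIntegral.integral_congr_ae
      have : ∀ᵐ t : ℝ, t ≠ 1 / 2 := by simp [ae_iff]
      filter_upwards [this] with t ht ht'
      rw [uIoc_of_le (by norm_num)] at ht'
      have ht2 : 2 * t - 1 < 0 := by
        have : t < 1 / 2 := lt_of_le_of_ne ht'.2 ht
        linarith
      rw [deriv_zero_of_const_le (fun t ht => (h₂ t ht).1) ht2, (h₂ _ ht2.le).1, (h₂ _ ht2.le).2]
      ring_nf
    rw [h3, intervalIntegral.integral_const_mul]
    have h4 := intervalIntegral.integral_comp_mul_left (a := (0 : ℝ)) (b := 1 / 2)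
      (f := fun t => F (x₁ t) (y₁ t) * deriv x₁ t) (c := 2) (by norm_num)
    rw [h4]
    norm_num
    ring
  · have h3 : ∫ t in (1 / 2 : ℝ)..1, F (x₁ (2 * t) + x₂ (2 * t - 1) - m.1)
        (y₁ (2 * t) + y₂ (2 * t - 1) - m.2) *
        (2 * deriv x₁ (2 * t) + 2 * deriv x₂ (2 * t - 1)) =
        ∫ t in (1 / 2 : ℝ)..1, 2 * (F (x₂ (2 * t - 1)) (y₂ (2 * t - 1)) *
          deriv x₂ (2 * t - 1)) := by
      apply intervalIntegral.integral_congr_ae
      filter_upwards with t ht'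
      rw [uIoc_of_le (by norm_num)] at ht'
      have ht2 : 1 < 2 * t := by linarith [ht'.1]
      rw [deriv_zero_of_const_ge (fun t ht => (h₁ t ht).1) ht2, (h₁ _ ht2.le).1, (h₁ _ ht2.le).2]
      ring_nf
    rw [h3, intervalIntegral.integral_const_mul]
    have h4 := intervalIntegral.integral_comp_mul_sub (a := (1 / 2 : ℝ)) (b := 1)
      (f := fun t => F (x₂ t) (y₂ t) * deriv x₂ t) (c := 2) (by norm_num) 1
    rw [h4]
    norm_num
    ring

theorem lineInt_reverse {F : ℝ → ℝ → ℝ} {x y : ℝ → ℝ} :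
    lineInt F (fun t => x (1 - t)) (fun t => y (1 - t)) = - lineInt F x y := by
  have hd : ∀ t, deriv (fun t => x (1 - t)) t = - deriv x (1 - t) := by
    intro t
    exact deriv_comp_const_sub _ _ _
  unfold lineInt
  simp only [hd]
  have h4 := intervalIntegral.integral_comp_sub_left (a := (0 : ℝ)) (b := 1)
      (fun t => F (x t) (y t) * deriv x t) 1
  simp only [sub_zero, sub_self] at h4
  rw [← h4, ← intervalIntegral.integral_neg]
  congr 1
  ext t
  ring

variable {a : ℝ → ℝ} {s : ℝ}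

theorem continuous_G (ha : Continuous a) : Continuous (fun p : ℝ × ℝ => Gfun a p.1 p.2) := by
  unfold Gfun
  fun_prop

theorem continuous_xG (ha : Continuous a) :
    Continuous (fun p : ℝ × ℝ => p.1 * Gfun a p.1 p.2) := by
  unfold Gfun
  fun_prop

theorem SPath.trans (ha : Continuous a) {p q r w w' : ℝ × ℝ} (h₁ : SPath a s p q w)
    (h₂ : SPath a s q r w') : SPath a s p r (w + w') := by
  obtain ⟨x₁, y₁, hx₁, hy₁, hl₁, hr₁, hs₁, hw₁, hw₁'⟩ := h₁
  obtain ⟨x₂, y₂, hx₂, hy₂, hl₂, hr₂, hs₂, hw₂, hw₂'⟩ := h₂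
  refine ⟨fun t => x₁ (2 * t) + x₂ (2 * t - 1) - q.1,
    fun t => y₁ (2 * t) + y₂ (2 * t - 1) - q.2, by fun_prop, by fun_prop, ?_, ?_, ?_, ?_, ?_⟩
  · intro t ht
    have h1 := hl₁ (2 * t) (by linarith)
    have h2 := hl₂ (2 * t - 1) (by linarith)
    simp [h1.1, h1.2, h2.1, h2.2]
  · intro t ht
    have h1 := hr₁ (2 * t) (by linarith)
    have h2 := hr₂ (2 * t - 1) (by linarith)
    simp [h1.1, h1.2, h2.1, h2.2]
  · intro t
    rcases le_total t (1 / 2) with ht | ht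
    · have h2 := hl₂ (2 * t - 1) (by linarith)
      simpa [h2.1, h2.2] using hs₁ (2 * t)
    · have h1 := hr₁ (2 * t) (by linarith)
      simpa [h1.1, h1.2] using hs₂ (2 * t - 1)
  · rw [lineInt_concat (continuous_G ha) hx₁ hy₁ hx₂ hy₂ hr₁ hl₂, hw₁, hw₂]
    rfl
  · rw [lineInt_concat (F := fun x y => x * Gfun a x y) (continuous_xG ha) hx₁ hy₁ hx₂ hy₂
      hr₁ hl₂, hw₁', hw₂']
    rfl

theorem SPath.symm {p q w : ℝ × ℝ} (h₁ : SPath a s p q w) : SPath a s q p (-w) := by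
  obtain ⟨x₁, y₁, hx₁, hy₁, hl₁, hr₁, hs₁, hw₁, hw₁'⟩ := h₁
  refine ⟨fun t => x₁ (1 - t), fun t => y₁ (1 - t), by fun_prop, by fun_prop, ?_, ?_, ?_, ?_, ?_⟩
  · intro t ht
    exact hr₁ (1 - t) (by linarith)
  · intro t ht
    exact hl₁ (1 - t) (by linarith)
  · intro t
    exact hs₁ (1 - t)
  · rw [lineInt_reverse, hw₁]
    rfl
  · rw [lineInt_reverse, hw₁']
    rfl

/-- The constant path. -/
theorem SPath.refl_zero (x₀ : ℝ) : SPath a s (x₀, 0) (x₀, 0) 0 := by
  refine ⟨fun _ => x₀, fun _ => 0, contDiff_const, contDiff_const, ?_, ?_, ?_, ?_, ?_⟩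
  · simp
  · simp
  · simp
  · simp [lineInt]
  · simp [lineInt]

/-- Paths along the graph of a function `b` which takes only the values `0` and `a`. -/
theorem SPath.graph {b : ℝ → ℝ} (hb : ContDiff ℝ 1 b)
    (hab : ∀ x, b x * (a x - b x) = 0) (x₀ x₁ : ℝ) :
    SPath a s (x₀, b x₀) (x₁, b x₁)
      (∫ x in x₀..x₁, b x ^ 3, ∫ x in x₀..x₁, x * b x ^ 3) := by
  have hτ : ContDiff ℝ 1 Real.smoothTransition := Real.smoothTransition.contDiff
  have hxc : ContDiff ℝ 1 (fun t => x₀ + (x₁ - x₀) * Real.smoothTransition t) := by fun_prop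
  have hG : ∀ x, Gfun a x (b x) = b x ^ 3 := by
    intro x
    unfold Gfun
    linear_combination (3 * b x) * hab x
  have hsub : ∀ f : ℝ → ℝ, Continuous f →
      ∫ t in (0 : ℝ)..1, f (x₀ + (x₁ - x₀) * Real.smoothTransition t) *
        deriv (fun t => x₀ + (x₁ - x₀) * Real.smoothTransition t) t = ∫ x in x₀..x₁, f x := by
    intro f hf
    have := intervalIntegral.integral_comp_mul_deriv (a := (0 : ℝ)) (b := 1)
      (f := fun t => x₀ + (x₁ - x₀) * Real.smoothTransition t)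
      (f' := deriv (fun t => x₀ + (x₁ - x₀) * Real.smoothTransition t)) (g := f)
      (fun t _ => (hxc.differentiable one_ne_zero t).hasDerivAt)
      ((hxc.continuous_deriv le_rfl).continuousOn) hf
    simp only [Function.comp_def] at this
    rw [this]
    simp
  refine ⟨fun t => x₀ + (x₁ - x₀) * Real.smoothTransition t,
    fun t => b (x₀ + (x₁ - x₀) * Real.smoothTransition t), hxc, hb.comp hxc, ?_, ?_, ?_, ?_, ?_⟩
  · intro t ht
    simp [Real.smoothTransition.zero_of_nonpos ht]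
  · intro t ht
    simp [Real.smoothTransition.one_of_one_le ht]
  · intro t
    simp [hab]
  · unfold lineInt
    simp only [hG]
    exact hsub (fun x => b x ^ 3) (by have := hb.continuous; fun_prop)
  · unfold lineInt
    simp only [hG]
    exact hsub (fun x => x * b x ^ 3) (by have := hb.continuous; fun_prop)

/-- Vertical paths at `x = s`. -/
theorem SPath.vertical (y₀ y₁ : ℝ) : SPath a s (s, y₀) (s, y₁) 0 := by
  have hτ : ContDiff ℝ 1 Real.smoothTransition := Real.smoothTransition.contDiff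
  refine ⟨fun _ => s, fun t => y₀ + (y₁ - y₀) * Real.smoothTransition t, contDiff_const,
    by fun_prop, ?_, ?_, ?_, ?_, ?_⟩
  · intro t ht
    simp [Real.smoothTransition.zero_of_nonpos ht]
  · intro t ht
    simp [Real.smoothTransition.one_of_one_le ht]
  · simp
  · simp [lineInt]
  · simp [lineInt]

end Pool.Agent.Helper19.SR
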