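import Mathlib
import Pool.Agent.Helper19.SR.Moments
import Pool.Agent.Helper19.SR.Paths

set_option autoImplicit false

open MeasureTheory Set Filter
open scoped ContDiff Topology

namespace Pool.Agent.Helper19.SR

/-- Greedy expansion of a real number with bounded digits. -/
theorem exists_digits {c : ℕ → ℝ} (hc : ∀ k, 0 < c k) {K : ℕ} (hK : ∀ k, c k ≤ K * c (k + 1))
    (h0 : Tendsto c atTop (𝓝 0)) {x : ℝ} (hx : 0 ≤ x) (hx' : x < c 0) :
    ∃ n : ℕ → ℕ, (∀ k, n k ≤ K) ∧ HasSum (fun k => (n k : ℝ) * c k) x := by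
  let r : ℕ → ℝ := fun k => Nat.rec x (fun k rk => rk - ⌊rk / c k⌋₊ * c k) k
  have r0 : r 0 = x := rfl
  have rs : ∀ k, r (k + 1) = r k - ⌊r k / c k⌋₊ * c k := fun k => rfl
  have hr0 : ∀ k, 0 ≤ r k := by
    intro k
    induction k with
    | zero => exact hx
    | succ k ih =>
      rw [rs]
      have h1 : (⌊r k / c k⌋₊ : ℝ) ≤ r k / c k := Nat.floor_le (div_nonneg ih (hc k).le)
      have h2 := mul_le_mul_of_nonneg_right h1 (hc k).le
      rw [div_mul_cancel₀ _ (hc k).ne'] at h2
      linarith
  have hr1 : ∀ k, r (k + 1) < c k := by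
    intro k
    rw [rs]
    have h1 : r k / c k < ⌊r k / c k⌋₊ + 1 := Nat.lt_floor_add_one _
    have h2 := mul_lt_mul_of_pos_right h1 (hc k)
    rw [div_mul_cancel₀ _ (hc k).ne'] at h2
    linarith
  refine ⟨fun k => ⌊r k / c k⌋₊, ?_, ?_⟩
  · intro k
    apply Nat.floor_le_of_le
    rw [div_le_iff₀ (hc k)]
    cases k with
    | zero =>
      rw [r0]
      have h1 : (1 : ℝ) ≤ K := by
        by_contra hcon
        have : K = 0 := by
          by_contra h
          exact hcon (by exact_mod_cast Nat.one_le_iff_ne_zero.2 h)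
        have h2 := hK 0
        rw [this] at h2
        simp at h2
        linarith [hc 0]
      nlinarith [hc 0]
    | succ k => exact (hr1 k).le.trans (hK k)
  · rw [hasSum_iff_tendsto_nat_of_nonneg (fun k => mul_nonneg (Nat.cast_nonneg _) (hc k).le)]
    have hsum : ∀ m, ∑ k ∈ Finset.range m, ((⌊r k / c k⌋₊ : ℕ) : ℝ) * c k = x - r m := by
      intro m
      induction m with
      | zero => simp [r0]
      | succ m ih =>
        rw [Finset.sum_range_succ, ih, rs]
        ring
    simp only [hsum]
    have h2 : Tendsto (fun m => r m) atTop (𝓝 0) := by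
      rw [← tendsto_add_atTop_iff_nat 1]
      exact squeeze_zero (fun k => hr0 (k + 1)) (fun k => (hr1 k).le) h0
    simpa using h2.const_sub x

/-- The function `a`. -/
noncomputable def afun (x : ℝ) : ℝ := train (fun _ => 1) x + train (fun _ => 1) (-x)

theorem contDiff_afun : ContDiff ℝ ∞ afun := by
  have h : ContDiff ℝ ∞ (train (fun _ => 1)) := contDiff_train (by simp)
  unfold afun
  exact h.add (h.comp contDiff_neg)

/-- `C_e` -/
noncomputable def CC (e : ℕ → ℝ) : ℝ := ∫ x in (0 : ℝ)..1, train e x ^ 3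

/-- `D_e` -/
noncomputable def DD (e : ℕ → ℝ) : ℝ := ∫ x in (0 : ℝ)..1, x * train e x ^ 3

variable {s : ℝ}

theorem back (x₀ : ℝ) : SPath afun s (x₀, 0) (0, 0) 0 := by
  have := SPath.graph (a := afun) (s := s) (b := fun _ => 0) contDiff_const (by simp) x₀ 0
  have h0 : ((0 : ℝ), (0 : ℝ)) = 0 := rfl
  simpa [h0] using this

theorem loop_right {e : ℕ → ℝ} (he : ∀ k, e k = 0 ∨ e k = 1) :
    SPath afun s (0, 0) (0, 0) (CC e, DD e) := by
  have he' : ∀ k, |e k| ≤ 1 := fun k => by rcases he k with h | h <;> simp [h]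
  have h1 := SPath.graph (a := afun) (s := s) (b := train e)
    ((contDiff_train he').of_le (by exact_mod_cast le_top)) ?_ 0 1
  · rw [train_of_nonpos e le_rfl, train_of_one_le e le_rfl] at h1
    have h2 := h1.trans contDiff_afun.continuous (back 1)
    simpa [CC, DD] using h2
  · intro x
    rcases le_total x 0 with hx | hx
    · simp [train_of_nonpos e hx]
    · have := train_mul_sub he x
      unfold afun
      rw [train_of_nonpos (fun _ => 1) (by linarith : -x ≤ 0), add_zero]
      exact this

theorem loop_left {e : ℕ → ℝ} (he : ∀ k, e k = 0 ∨ e k = 1) :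
    SPath afun s (0, 0) (0, 0) (-CC e, DD e) := by
  have he' : ∀ k, |e k| ≤ 1 := fun k => by rcases he k with h | h <;> simp [h]
  have h1 := SPath.graph (a := afun) (s := s) (b := fun x => train e (-x))
    (((contDiff_train he').of_le (by exact_mod_cast le_top)).comp contDiff_neg) ?_ 0 (-1)
  · simp only [neg_zero, neg_neg] at h1
    rw [train_of_nonpos e le_rfl, train_of_one_le e le_rfl] at h1
    have h2 := h1.trans contDiff_afun.continuous (back (-1))
    have e1 : ∫ x in (0 : ℝ)..(-1), train e (-x) ^ 3 = - CC e := by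
      have := intervalIntegral.integral_comp_neg (a := (0 : ℝ)) (b := -1)
        (fun x => train e x ^ 3)
      simp only [neg_zero, neg_neg] at this
      rw [this, intervalIntegral.integral_symm]
      rfl
    have e2 : ∫ x in (0 : ℝ)..(-1), x * train e (-x) ^ 3 = DD e := by
      have := intervalIntegral.integral_comp_neg (a := (0 : ℝ)) (b := -1)
        (fun x => -(x * train e x ^ 3))
      simp only [neg_zero, neg_neg] at this
      have h3 : ∀ x : ℝ, x * train e (-x) ^ 3 = -(-x * train e (-x) ^ 3) := fun x => by ring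
      simp only [h3]
      rw [this, intervalIntegral.integral_symm, intervalIntegral.integral_neg, neg_neg]
      rfl
    rw [e1, e2] at h2
    simpa using h2
  · intro x
    rcases le_total 0 x with hx | hx
    · simp [train_of_nonpos e (by linarith : -x ≤ 0)]
    · have := train_mul_sub he (-x)
      unfold afun
      rw [train_of_nonpos (fun _ => 1) hx, zero_add]
      exact this

theorem loop_fst {e : ℕ → ℝ} (he : ∀ k, e k = 0 ∨ e k = 1) :
    SPath afun s (0, 0) (0, 0) (2 * CC e, 0) := by
  have h := (loop_right (s := s) he).trans contDiff_afun.continuous (loop_left he).symm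
  simpa [two_mul] using h

theorem loop_snd {e : ℕ → ℝ} (he : ∀ k, e k = 0 ∨ e k = 1) :
    SPath afun s (0, 0) (0, 0) (0, 2 * DD e) := by
  have h := (loop_right (s := s) he).trans contDiff_afun.continuous (loop_left he)
  simpa [two_mul] using h

theorem hasSum_CC {e : ℕ → ℝ} (he : ∀ k, e k = 0 ∨ e k = 1) :
    HasSum (fun k => e k * cc k) (CC e) := by
  have := hasSum_train (w := fun _ => 1) continuous_const (by simp) he
  simpa [CC, cc] using this

theorem hasSum_DD {e : ℕ → ℝ} (he : ∀ k, e k = 0 ∨ e k = 1) :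
    HasSum (fun k => e k * dd k) (DD e) := by
  have := hasSum_train (w := fun x => x) continuous_id
    (fun x hx => by rw [abs_of_nonneg hx.1]; exact hx.2) he
  simpa [DD, dd] using this

theorem loop_sum {ι : Type} (t : Finset ι) {f : ι → ℝ × ℝ}
    (h : ∀ i ∈ t, SPath afun s (0, 0) (0, 0) (f i)) :
    SPath afun s (0, 0) (0, 0) (∑ i ∈ t, f i) := by
  classical
  induction t using Finset.induction_on with
  | empty => simpa using SPath.refl_zero (a := afun) (s := s) 0
  | insert i t hi ih =>
    rw [Finset.sum_insert hi]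
    exact (h i (Finset.mem_insert_self i t)).trans contDiff_afun.continuous
      (ih fun j hj => h j (Finset.mem_insert_of_mem hj))

/-- Splitting bounded digits into zero-one digits. -/
theorem split_digits {c : ℕ → ℝ} {K : ℕ} {n : ℕ → ℕ} (hn : ∀ k, n k ≤ K) {x : ℝ}
    (hx : HasSum (fun k => (n k : ℝ) * c k) x) {S : (ℕ → ℝ) → ℝ}
    (hS : ∀ e : ℕ → ℝ, (∀ k, e k = 0 ∨ e k = 1) → HasSum (fun k => e k * c k) (S e)) :
    x = ∑ i ∈ Finset.range K, S (fun k => if i < n k then 1 else 0) := by
  have h1 : HasSum (fun k => ∑ i ∈ Finset.range K, (if i < n k then (1 : ℝ) else 0) * c k)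
      (∑ i ∈ Finset.range K, S (fun k => if i < n k then 1 else 0)) := by
    apply hasSum_sum
    intro i _
    exact hS _ (fun k => by by_cases h : i < n k <;> simp [h])
  have h2 : ∀ k, ∑ i ∈ Finset.range K, (if i < n k then (1 : ℝ) else 0) * c k =
      (n k : ℝ) * c k := by
    intro k
    rw [← Finset.sum_mul]
    congr 1
    rw [Finset.sum_ite, Finset.sum_const_zero, add_zero, Finset.sum_const, nsmul_eq_mul, mul_one]
    congr 1
    have : Finset.filter (fun i => i < n k) (Finset.range K) = Finset.range (n k) := by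
      ext i
      simp only [Finset.mem_filter, Finset.mem_range]
      exact ⟨fun h => h.2, fun h => ⟨h.trans_le (hn k), h⟩⟩
    rw [this, Finset.card_range]
  simp only [h2] at h1
  exact hx.unique h1

theorem loop_fst_small {x : ℝ} (hx : 0 ≤ x) (hx' : x < cc 0) :
    SPath afun s (0, 0) (0, 0) (2 * x, 0) := by
  obtain ⟨n, hn, hsum⟩ := exists_digits (K := 24) cc_pos (by exact_mod_cast cc_le) cc_tendsto hx hx'
  have h1 := split_digits hn hsum (S := CC) (fun e he => hasSum_CC he)
  have h2 := loop_sum (s := s) (Finset.range 24)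
    (f := fun i => (2 * CC (fun k => if i < n k then 1 else 0), 0))
    (fun i _ => loop_fst (fun k => by by_cases h : i < n k <;> simp [h]))
  convert h2 using 1
  rw [h1, Finset.mul_sum]
  ext
  · simp [Prod.fst_sum]
  · simp [Prod.snd_sum]

theorem loop_snd_small {x : ℝ} (hx : 0 ≤ x) (hx' : x < dd 0) :
    SPath afun s (0, 0) (0, 0) (0, 2 * x) := by
  obtain ⟨n, hn, hsum⟩ := exists_digits (K := 72) dd_pos (by exact_mod_cast dd_le) dd_tendsto hx hx'
  have h1 := split_digits hn hsum (S := DD) (fun e he => hasSum_DD he)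
  have h2 := loop_sum (s := s) (Finset.range 72)
    (f := fun i => (0, 2 * DD (fun k => if i < n k then 1 else 0)))
    (fun i _ => loop_snd (fun k => by by_cases h : i < n k <;> simp [h]))
  convert h2 using 1
  rw [h1, Finset.mul_sum]
  ext
  · simp [Prod.fst_sum]
  · simp [Prod.snd_sum]

theorem exists_small (z : ℝ) {c : ℝ} (hc : 0 < c) :
    ∃ (N : ℕ) (x : ℝ), 0 ≤ x ∧ x < c ∧ |z| = N * (2 * x) := by
  obtain ⟨N, hN⟩ := exists_nat_gt (|z| / (2 * c))
  have hN0 : (0 : ℝ) < N := lt_of_le_of_lt (by positivity) hN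
  refine ⟨N, |z| / (2 * N), by positivity, ?_, ?_⟩
  · rw [div_lt_iff₀ (by positivity)] at hN ⊢
    linarith
  · field_simp

theorem loop_fst_all (z : ℝ) : SPath afun s (0, 0) (0, 0) (z, 0) := by
  have habs : SPath afun s (0, 0) (0, 0) (|z|, 0) := by
    obtain ⟨N, x, hx, hx', hz⟩ := exists_small z (cc_pos 0)
    have h2 := loop_sum (s := s) (Finset.range N) (f := fun _ => (2 * x, 0))
      (fun i _ => loop_fst_small hx hx')
    rw [hz]
    simpa using h2
  rcases abs_choice z with h | h
  · rwa [h] at habs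
  · rw [h] at habs
    simpa using habs.symm

theorem loop_snd_all (z : ℝ) : SPath afun s (0, 0) (0, 0) (0, z) := by
  have habs : SPath afun s (0, 0) (0, 0) (0, |z|) := by
    obtain ⟨N, x, hx, hx', hz⟩ := exists_small z (dd_pos 0)
    have h2 := loop_sum (s := s) (Finset.range N) (f := fun _ => (0, 2 * x))
      (fun i _ => loop_snd_small hx hx')
    rw [hz]
    simpa using h2
  rcases abs_choice z with h | h
  · rwa [h] at habs
  · rw [h] at habs
    simpa using habs.symm

theorem loop_all (w : ℝ × ℝ) : SPath afun s (0, 0) (0, 0) w := by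
  have := (loop_fst_all (s := s) w.1).trans contDiff_afun.continuous (loop_snd_all w.2)
  simpa using this

/-- Every point of `ℝ⁴` is reached. -/
theorem exists_path (x₀ y₀ z₁ z₂ : ℝ) : SPath afun x₀ (0, 0) (x₀, y₀) (z₁, z₂) := by
  have h1 := loop_all (s := x₀) (z₁, z₂)
  have h2 : SPath afun x₀ (0, 0) (x₀, 0) 0 := by simpa using (back (s := x₀) x₀).symm
  have h3 : SPath afun x₀ (x₀, 0) (x₀, y₀) 0 := SPath.vertical 0 y₀
  simpa using (h1.trans contDiff_afun.continuous h2).trans contDiff_afun.continuous h3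

end Pool.Agent.Helper19.SR
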