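import Mathlib
import Pool.Agent.Helper19.SR.Endpoint

set_option autoImplicit false

open MeasureTheory Set
open scoped ContDiff

namespace Pool.Agent.Helper19.SR

variable {a : ℝ → ℝ}

/-- The continuous velocity field of a `C¹` plane curve. -/
theorem memLp_vel {x y : ℝ → ℝ} (hx : ContDiff ℝ 1 x) (hy : ContDiff ℝ 1 y) :
    MemLp (fun t => (!₂[deriv x t, deriv y t] : EuclideanSpace ℝ (Fin 2))) 2
      (volume.restrict (Icc (0 : ℝ) 1)) := by
  have hcont : Continuous (fun t => (!₂[deriv x t, deriv y t] : EuclideanSpace ℝ (Fin 2))) := by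
    refine (PiLp.continuous_toLp 2 _).comp ?_
    rw [continuous_pi_iff]
    intro i
    fin_cases i
    · exact hx.continuous_deriv le_rfl
    · exact hy.continuous_deriv le_rfl
  obtain ⟨C, hC⟩ := isCompact_Icc.exists_bound_of_continuousOn
    (s := Icc (0 : ℝ) 1) hcont.continuousOn
  refine MemLp.of_bound hcont.aestronglyMeasurable C ?_
  rw [ae_restrict_iff' measurableSet_Icc]
  exact Filter.Eventually.of_forall hC

/-- The control of a `C¹` plane curve. -/
noncomputable def ctrl (x y : ℝ → ℝ) (hx : ContDiff ℝ 1 x) (hy : ContDiff ℝ 1 y) : Control 2 :=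
  (memLp_vel hx hy).toLp _

theorem ctrl_ae {x y : ℝ → ℝ} (hx : ContDiff ℝ 1 x) (hy : ContDiff ℝ 1 y) {t : ℝ}
    (ht : t ∈ Icc (0 : ℝ) 1) :
    ∀ᵐ s, s ∈ uIoc 0 t → ctrl x y hx hy s = !₂[deriv x s, deriv y s] :=
  ae_of_restrict (memLp_vel hx hy).coeFn_toLp (by simp) ht

theorem prim_ctrl_zero {x y : ℝ → ℝ} (hx : ContDiff ℝ 1 x) (hy : ContDiff ℝ 1 y) {t : ℝ}
    (ht : t ∈ Icc (0 : ℝ) 1) : prim (ctrl x y hx hy) t 0 = x t - x 0 := by
  rw [prim_apply _ ht]
  have h1 : ∫ s in (0 : ℝ)..t, ctrl x y hx hy s 0 = ∫ s in (0 : ℝ)..t, deriv x s := by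
    apply intervalIntegral.integral_congr_ae
    filter_upwards [ctrl_ae hx hy ht] with s hs hs'
    rw [hs hs']
    simp
  rw [h1]
  exact intervalIntegral.integral_deriv_eq_sub
    (fun z _ => (hx.differentiable one_ne_zero) z)
    ((hx.continuous_deriv le_rfl).intervalIntegrable _ _)

theorem prim_ctrl_one {x y : ℝ → ℝ} (hx : ContDiff ℝ 1 x) (hy : ContDiff ℝ 1 y) {t : ℝ}
    (ht : t ∈ Icc (0 : ℝ) 1) : prim (ctrl x y hx hy) t 1 = y t - y 0 := by
  rw [prim_apply _ ht]
  have h1 : ∫ s in (0 : ℝ)..t, ctrl x y hx hy s 1 = ∫ s in (0 : ℝ)..t, deriv y s := by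
    apply intervalIntegral.integral_congr_ae
    filter_upwards [ctrl_ae hx hy ht] with s hs hs'
    rw [hs hs']
    simp
  rw [h1]
  exact intervalIntegral.integral_deriv_eq_sub
    (fun z _ => (hy.differentiable one_ne_zero) z)
    ((hy.continuous_deriv le_rfl).intervalIntegrable _ _)

theorem prim_ctrl {x y : ℝ → ℝ} (hx : ContDiff ℝ 1 x) (hy : ContDiff ℝ 1 y) (hx0 : x 0 = 0)
    (hy0 : y 0 = 0) {t : ℝ} (ht : t ∈ Icc (0 : ℝ) 1) :
    prim (ctrl x y hx hy) t = !₂[x t, y t] := by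
  ext i
  fin_cases i
  · simpa [hx0] using prim_ctrl_zero hx hy ht
  · simpa [hy0] using prim_ctrl_one hx hy ht

theorem functional_ctrl {x y : ℝ → ℝ} (hx : ContDiff ℝ 1 x) (hy : ContDiff ℝ 1 y) (hx0 : x 0 = 0)
    (hy0 : y 0 = 0) (H : EuclideanSpace ℝ (Fin 2) → ℝ) :
    functional H (ctrl x y hx hy) = ∫ t in (0 : ℝ)..1, H !₂[x t, y t] * deriv x t := by
  unfold functional
  apply intervalIntegral.integral_congr_ae
  filter_upwards [ctrl_ae hx hy (t := 1) (by simp)] with s hs hs'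
  rw [hs hs', prim_ctrl hx hy hx0 hy0]
  · simp
  · rw [uIoc_of_le zero_le_one] at hs'
    exact ⟨hs'.1.le, hs'.2⟩

/-- The derivative of `Hp a s` at `(x,y)` in the direction `(1,0)`, as a function. -/
theorem fderiv_Hp (ha : ContDiff ℝ ∞ a) (s : ℝ) (p v : EuclideanSpace ℝ (Fin 2)) :
    fderiv ℝ (Hp a s) p v =
      (Gp a p + (p 0 - s) * (3 * (p 1) ^ 2 * deriv a (p 0))) * v 0
        + (p 0 - s) * (6 * p 1 * (a (p 0) - p 1)) * v 1 := by
  have hd : DifferentiableAt ℝ (Hp a s) p := (contDiff_Hp ha s).differentiable (by simp) p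
  have h1 := (hd.hasFDerivAt.hasLineDerivAt v)
  rw [HasLineDerivAt] at h1
  have hx : HasDerivAt (fun t : ℝ => p 0 + t * v 0) (v 0) 0 := by
    simpa using ((hasDerivAt_id (0 : ℝ)).mul_const (v 0)).const_add (p 0)
  have hy : HasDerivAt (fun t : ℝ => p 1 + t * v 1) (v 1) 0 := by
    simpa using ((hasDerivAt_id (0 : ℝ)).mul_const (v 1)).const_add (p 1)
  have hax : HasDerivAt (fun t : ℝ => a (p 0 + t * v 0)) (deriv a (p 0) * v 0) 0 := by
    have h3 : HasDerivAt a (deriv a (p 0)) (p 0 + 0 * v 0) := by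
      simpa using (ha.differentiable (by simp) (p 0)).hasDerivAt
    exact h3.comp (0 : ℝ) hx
  have h2 := (hx.sub_const s).mul ((hy.pow 2).mul ((hax.const_mul 3).sub (hy.const_mul 2)))
  have h3 := h1.unique (h2.congr_of_eventuallyEq (Filter.Eventually.of_forall fun t => by
    simp [Hp, Gp, Gfun]))
  rw [h3]
  simp [Gp, Gfun]
  ring

/-- **Singularity criterion**. If along the `C¹` plane curve `(x,y)` starting at the origin one has
`(x - s) y (a(x) - y) = 0`, and `s` is the final value of `x`, then the functional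
`u ↦ (End u)₃ - s (End u)₂` is critical at the control of the curve. -/
theorem fderiv_functional_eq_zero (ha : ContDiff ℝ ∞ a) {x y : ℝ → ℝ} (hx : ContDiff ℝ 1 x)
    (hy : ContDiff ℝ 1 y) (hx0 : x 0 = 0) (hy0 : y 0 = 0) {s : ℝ} (hs : x 1 = s)
    (hsing : ∀ t ∈ Icc (0 : ℝ) 1, (x t - s) * (y t * (a (x t) - y t)) = 0) :
    fderiv ℝ (functional (Hp a s)) (ctrl x y hx hy) = 0 := by
  ext v
  have h0 : (0 : ℝ) ∈ Icc (0 : ℝ) 1 := by simp
  have h1 : (1 : ℝ) ∈ Icc (0 : ℝ) 1 := by simp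
  rw [fderiv_functional (contDiff_Hp ha s)]
  set u := ctrl x y hx hy with hu
  -- the function `h(t) = H(x(t), y(t))`
  set h : ℝ → ℝ := fun t => Hp a s !₂[x t, y t] with hh
  set ξ : ℝ → ℝ := fun t => ∫ r in (0 : ℝ)..t, v r 0 with hξ
  have hcd : ContDiff ℝ 1 h := by
    have e : ContDiff ℝ 1 (fun t => (!₂[x t, y t] : EuclideanSpace ℝ (Fin 2))) := by
      rw [contDiff_euclidean]
      intro i
      fin_cases i
      · simpa using hx
      · simpa using hy
    exact ((contDiff_Hp ha s).of_le (by exact_mod_cast le_top)).comp e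
  have hderiv : ∀ t ∈ Icc (0 : ℝ) 1, deriv h t =
      (Gp a !₂[x t, y t] + (x t - s) * (3 * (y t) ^ 2 * deriv a (x t))) * deriv x t := by
    intro t ht
    have hxd := (hx.differentiable one_ne_zero t).hasDerivAt
    have hyd := (hy.differentiable one_ne_zero t).hasDerivAt
    have had : HasDerivAt (fun t => a (x t)) (deriv a (x t) * deriv x t) t :=
      (ha.differentiable (by simp) (x t)).hasDerivAt.comp t hxd
    have h2 := (hxd.sub_const s).mul ((hyd.pow 2).mul ((had.const_mul 3).sub (hyd.const_mul 2)))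
    have h3 : HasDerivAt h _ t :=
      h2.congr_of_eventuallyEq (Filter.Eventually.of_forall fun t => by
        simp [hh, Hp, Gp, Gfun])
    rw [h3.deriv]
    have := hsing t ht
    simp [Gp, Gfun]
    linear_combination (6 * deriv y t) * this
  have hac1 : AbsolutelyContinuousOnInterval h 0 1 :=
    hcd.contDiffOn.absolutelyContinuousOnInterval
  have hvint : IntervalIntegrable (fun r => v r 0) volume 0 1 :=
    v.intervalIntegrable_apply 0 h0 h1
  have hac2 : AbsolutelyContinuousOnInterval ξ 0 1 :=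
    hvint.absolutelyContinuousOnInterval_intervalIntegral (by simp)
  have key := hac1.integral_deriv_mul_eq_sub hac2
  have e1 : ξ 0 = 0 := by simp [hξ]
  have e2 : h 1 = 0 := by simp [hh, Hp, hs]
  rw [e1, e2] at key
  simp only [zero_mul, mul_zero, sub_zero] at key
  refine Eq.trans ?_ key
  apply intervalIntegral.integral_congr_ae
  filter_upwards [ctrl_ae hx hy h1, hvint.ae_hasDerivAt_integral] with t ht1 ht2 ht3
  have ht4 : t ∈ Icc (0 : ℝ) 1 := by
    rw [uIoc_of_le zero_le_one] at ht3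
    exact ⟨ht3.1.le, ht3.2⟩
  have ht5 : HasDerivAt ξ (v t 0) t :=
    ht2 (by rw [uIcc_of_le zero_le_one]; exact ht4) 0 (by simp)
  rw [hu, ht1 ht3, prim_ctrl hx hy hx0 hy0 ht4, fderiv_Hp ha, ht5.deriv, hderiv t ht4,
    prim_apply v ht4]
  have := hsing t ht4
  simp [hh, hξ]
  linear_combination (6 * (prim v t 1) * deriv x t) * this

end Pool.Agent.Helper19.SR
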